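import Pool.Agent.Q260.GX.Spec

set_option autoImplicit false

/-!
# GX: uniform bounds for the pair sums
-/

namespace Pool.Agent.Q257.GX

open MeasureTheory Filter Topology Set
open Pool.Agent.Y749.Rig (nT nT_pos)
open Pool.Agent.Q260.GX

variable {G : Dat}

lemma QQ_nonneg {x : ℝ} (hx : 0 < x) (T : ℝ) : 0 ≤ G.QQ x T :=
  Finset.sum_nonneg fun _ _ => Finset.sum_nonneg fun _ _ =>
    mul_nonneg (mul_nonneg (Nat.cast_nonneg _) (Nat.cast_nonneg _)) (by positivity)

lemma QQ_scale {x y : ℝ} (hx : 0 < x) (hxy : x ≤ y) (T : ℝ) : G.QQ y T ≤ y / x * G.QQ x T := by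
  unfold Dat.QQ
  rw [Finset.mul_sum]
  refine Finset.sum_le_sum fun s _ => ?_
  rw [Finset.mul_sum]
  refine Finset.sum_le_sum fun s' _ => ?_
  have hy : 0 < y := by linarith
  have h1 : 4 * y / (4 * y ^ 2 + (G.ga s - G.ga s') ^ 2) ≤
      y / x * (4 * x / (4 * x ^ 2 + (G.ga s - G.ga s') ^ 2)) := by
    have e : y / x * (4 * x / (4 * x ^ 2 + (G.ga s - G.ga s') ^ 2)) =
        4 * y / (4 * x ^ 2 + (G.ga s - G.ga s') ^ 2) := by
      field_simp
    rw [e]
    apply div_le_div_of_nonneg_left (by positivity) (by positivity)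
    have := pow_le_pow_left₀ hx.le hxy 2
    linarith
  calc (G.mu s : ℝ) * G.mu s' * (4 * y / (4 * y ^ 2 + (G.ga s - G.ga s') ^ 2)) ≤
      (G.mu s : ℝ) * G.mu s' * (y / x * (4 * x / (4 * x ^ 2 + (G.ga s - G.ga s') ^ 2))) :=
        mul_le_mul_of_nonneg_left h1 (mul_nonneg (Nat.cast_nonneg _) (Nat.cast_nonneg _))
    _ = _ := by ring

lemma RR_scale {T a b : ℝ} (hT : 10 ≤ T) (hb : 0 < b) (hba : b ≤ a) : G.RR a T ≤ a / b * G.RR b T := by
  have hn := nT_pos hT
  have hL : 0 < Real.log T := Real.log_pos (by linarith)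
  have h1 := QQ_scale (G := G) (div_pos hb hL) (div_le_div_of_nonneg_right hba hL.le) T
  have e : a / Real.log T / (b / Real.log T) = a / b := by field_simp
  rw [e] at h1
  unfold Dat.RR
  rw [mul_div_assoc']
  exact div_le_div_of_nonneg_right h1 (by positivity)

lemma RR_nonneg {T a : ℝ} (hT : 10 ≤ T) (ha : 0 < a) : 0 ≤ G.RR a T := by
  have hn := nT_pos hT
  have hL : 0 < Real.log T := Real.log_pos (by linarith)
  exact div_nonneg (QQ_nonneg (div_pos ha hL) T) (by positivity)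

/-- uniform bound for the pair sums -/
lemma RR_bdd (_hG : G.Good) (hCr : G.Crude) {a1 a2 : ℝ} (h0 : 0 < a1) (h12 : a1 ≤ a2) :
    ∃ R : ℝ, 0 < R ∧ ∀ᶠ T in atTop, ∀ a ∈ Icc a1 a2, 0 ≤ G.RR a T ∧ G.RR a T ≤ R := by
  obtain ⟨K, hK, h⟩ := hCr
  set b : ℝ := min a1 1 with hb
  have hb0 : 0 < b := by positivity
  have hb1 : b ≤ 1 := min_le_right _ _
  have hba : b ≤ a1 := min_le_left _ _
  have ha2 : 0 < a2 := by linarith
  refine ⟨a2 / b * (K / b), by positivity, ?_⟩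
  filter_upwards [h, eventually_ge_atTop (10 : ℝ)] with T hT hT10 a ha
  have ha0 : 0 < a := by linarith [ha.1]
  refine ⟨RR_nonneg hT10 ha0, ?_⟩
  have h1 := hT b hb0 hb1
  have h2 : G.RR b T ≤ K / b := by rw [le_div_iff₀ hb0]; linarith
  calc G.RR a T ≤ a / b * G.RR b T := RR_scale hT10 hb0 (hba.trans ha.1)
    _ ≤ a2 / b * (K / b) := by
        apply mul_le_mul _ h2 (RR_nonneg hT10 hb0) (by positivity)
        exact div_le_div_of_nonneg_right ha.2 hb0.le

end Pool.Agent.Q257.GX
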