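import Pool.Agent.Q257.GX.PMa
import Pool.Agent.Q257.GX.RRb

set_option autoImplicit false

/-!
# GX-PM: the mean square of the real part of the logarithmic derivative and the pairs
-/

namespace Pool.Agent.Q257.GX

open MeasureTheory Filter Topology Set Complex
open Pool.Agent.Y23 (Lg one_le_Lg)
open Pool.Agent.Y749.Rig (nT nT_pos)
open Pool.Agent.Q260.GM (pk sx LL kk h0 kT pk_nonneg pk_le pk_cont pk_hasInt Lg_log log4_small)
open Pool.Agent.Q260.GX

variable {G : Dat}

/-- **the mean square of the real part of the logarithmic derivative** -/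
lemma pair_mean_aux (hG : G.Good) (hCr : G.Crude) {a1 a2 : ℝ} (h1 : 0 < a1) (h12 : a1 ≤ a2) {ε : ℝ}
    (hε : 0 < ε) (hε1 : ε ≤ 1) : ∀ᶠ T : ℝ in atTop, ∀ a ∈ Icc a1 a2,
    |(∫ t in (0 : ℝ)..T, G.DD (a / Real.log T) t ^ 2) -
      T * Real.log T ^ 2 / 4 * (G.RR a T - G.n ^ 2)| ≤ ε * (T * Real.log T ^ 2) := by
  obtain ⟨K, hK0, hK, hF⟩ := fin_le hG
  obtain ⟨C, hC0, hD⟩ := DD_abs hG
  obtain ⟨R, hR0, hR⟩ := RR_bdd hG hCr h1 h12
  obtain ⟨Ap, hAp1, hAp⟩ := hG.ldp
  have hAp0 : 0 ≤ Ap := by linarith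
  have hn1 : 1 ≤ G.n := hG.n_pos
  obtain ⟨n, hn⟩ : ∃ n : ℝ, G.n = n := ⟨_, rfl⟩
  simp only [hn] at hn1 hAp ⊢
  have hn0 : 0 < n := by linarith
  have hpi := Real.pi_pos
  have ha2 : 0 < a2 := by linarith
  -- constants
  set C1 : ℝ := 2 * (Ap + a2 * (4 * K)) ^ 2 + 16 * n ^ 2 with hC1
  set C2 : ℝ := 2 * ((C + K + n) * 2 / a1) ^ 2 with hC2
  set C3 : ℝ := 4 * Real.pi * (4 * K / a1 + (n + 1) * a2) with hC3
  set C4 : ℝ := 4 * Real.pi * ((4 * K / a1) ^ 2 + 2 * K * a2 * ((n + 1) * a2)) with hC4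
  have c1 : 0 ≤ C1 := by positivity
  have c2 : 0 ≤ C2 := by positivity
  have c3 : 0 ≤ C3 := by positivity
  have c4 : 0 ≤ C4 := by positivity
  -- the small parameters
  obtain ⟨η, hη0, hη1⟩ : ∃ η : ℝ, 0 < η ∧ η * (R + 2) ≤ ε / 8 :=
    ⟨ε / 8 / (R + 2), by positivity, by rw [div_mul_cancel₀ _ (by positivity)]⟩
  obtain ⟨ν, hν0, hν1, hν2, hν3⟩ : ∃ ν : ℝ, 0 < ν ∧ ν * ((1 + 1 / η) * (C1 + C2)) ≤ ε / 8 ∧
      ν * (2 * (n * C3) + 2 * C4) ≤ ε / 8 ∧ n * ν ≤ ε / 8 := by
    refine ⟨min (ε / 8 / ((1 + 1 / η) * (C1 + C2) + 1)) (min (ε / 8 / (2 * (n * C3) + 2 * C4 + 1)) (ε / 8 / n)),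
      by positivity, ?_, ?_, ?_⟩
    · have h0 : 0 ≤ (1 + 1 / η) * (C1 + C2) := by positivity
      calc _ ≤ ε / 8 / ((1 + 1 / η) * (C1 + C2) + 1) * ((1 + 1 / η) * (C1 + C2)) :=
            mul_le_mul_of_nonneg_right (min_le_left _ _) h0
        _ ≤ ε / 8 / ((1 + 1 / η) * (C1 + C2) + 1) * ((1 + 1 / η) * (C1 + C2) + 1) :=
            mul_le_mul_of_nonneg_left (by linarith) (by positivity)
        _ = _ := by rw [div_mul_cancel₀ _ (by positivity)]
    · have h0 : 0 ≤ 2 * (n * C3) + 2 * C4 := by positivity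
      calc _ ≤ ε / 8 / (2 * (n * C3) + 2 * C4 + 1) * (2 * (n * C3) + 2 * C4) :=
            mul_le_mul_of_nonneg_right ((min_le_right _ _).trans (min_le_left _ _)) h0
        _ ≤ ε / 8 / (2 * (n * C3) + 2 * C4 + 1) * (2 * (n * C3) + 2 * C4 + 1) :=
            mul_le_mul_of_nonneg_left (by linarith) (by positivity)
        _ = _ := by rw [div_mul_cancel₀ _ (by positivity)]
    · calc _ ≤ n * (ε / 8 / n) :=
            mul_le_mul_of_nonneg_left ((min_le_right _ _).trans (min_le_right _ _)) hn0.le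
        _ = _ := by field_simp
  have hlog : ∀ᶠ T : ℝ in atTop, max (max (1 / ν) (4 * a2)) 2 ≤ Real.log T :=
    Real.tendsto_log_atTop.eventually_ge_atTop _
  filter_upwards [hR, Ns_asymp hG (ε := min ν 1) (by positivity), hlog, log4_small (ε := min ν 1) (by positivity),
    eventually_ge_atTop (10 : ℝ)] with T hRT hN hl hl4 hT10 a ha
  obtain ⟨hLg, hL1⟩ := Lg_log (show 3 ≤ T by linarith)
  set L : ℝ := Real.log T with hL
  have hL2 : 2 ≤ L := (le_max_right _ _).trans hl
  have hLν : 1 ≤ ν * L := by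
    have : 1 / ν ≤ L := (le_max_left _ _).trans ((le_max_left _ _).trans hl)
    rwa [div_le_iff₀' hν0] at this
  have hLa : 4 * a2 ≤ L := (le_max_right _ _).trans ((le_max_left _ _).trans hl)
  have ha0 : 0 < a := by linarith [ha.1]
  have hLp : 0 < L := by linarith
  have hTp : 0 < T := by linarith
  set x : ℝ := a / L with hx
  have hx0 : 0 < x := div_pos ha0 hLp
  have hx1 : x ≤ 1 / 4 := by
    rw [hx, div_le_iff₀ hLp]
    linarith [ha.2]
  have hxL : x * L = a := by rw [hx]; field_simp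
  have hnp := nT_pos hT10
  have hnT : nT T = T * L / (2 * Real.pi) := rfl
  simp only [hn] at hN
  have hNle : G.Ns T ≤ (n + 1) * nT T := by
    have h3 := (abs_le.1 hN).2
    have h4 : min ν 1 * nT T ≤ 1 * nT T := mul_le_mul_of_nonneg_right (min_le_right _ _) hnp.le
    linarith
  have hxN : x * G.Ns T ≤ (n + 1) * a2 * T := by
    calc x * G.Ns T ≤ x * ((n + 1) * nT T) := mul_le_mul_of_nonneg_left hNle hx0.le
      _ = (n + 1) * (a * T / (2 * Real.pi)) := by rw [hnT, ← hxL]; field_simp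
      _ ≤ (n + 1) * (a2 * T) := by
        apply mul_le_mul_of_nonneg_left _ (by linarith)
        rw [div_le_iff₀ (by positivity)]
        have : 1 ≤ Real.pi := by linarith [Real.pi_gt_three]
        have h5 : a * T ≤ a2 * T := mul_le_mul_of_nonneg_right ha.2 hTp.le
        have h6 : a2 * T * 1 ≤ a2 * T * (2 * Real.pi) :=
          mul_le_mul_of_nonneg_left (by linarith) (by positivity)
        linarith
      _ = _ := by ring
  have hLgx : Lg T / x ≤ 2 / a1 * L ^ 2 := by
    rw [div_le_iff₀ hx0]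
    calc Lg T ≤ 2 * L := hLg
      _ ≤ 2 / a1 * a * L := by
        have : 1 ≤ a / a1 := by rw [le_div_iff₀ h1]; linarith [ha.1]
        have e : 2 / a1 * a * L = 2 * (a / a1) * L := by ring
        rw [e]
        have h6 := mul_le_mul_of_nonneg_right this hLp.le
        linarith
      _ = _ := by rw [← hxL]; ring
  have hLgx0 : 0 ≤ Lg T / x := by
    have := one_le_Lg T
    positivity
  -- the quantities
  set Rr : ℝ := G.RR a T with hRr
  obtain ⟨hr0, hr1⟩ := hRT a ha
  have hA := delta_int hG hAp0 (by simpa only [hn] using hAp) hK0 hC0 hK hD hx0 hx1 (show 2 ≤ T by linarith)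
  simp only [hn] at hA
  obtain ⟨hP1, hP2⟩ := PT_cut hG hK0 hK hF hx0 (by linarith) (show 1 ≤ T by linarith)
  rw [PT_pair hT10 ha0] at hP2
  set A : ℝ := ∫ t in (0 : ℝ)..T, G.DD x t ^ 2 with hAdef
  set B : ℝ := ∫ t in (0 : ℝ)..T, (n * L / 2 - G.PT T x t) ^ 2 with hB
  set D2 : ℝ := ∫ t in (0 : ℝ)..T, (G.DD x t - (n * L / 2 - G.PT T x t)) ^ 2 with hD2
  set I1 : ℝ := ∫ t in (0 : ℝ)..T, G.PT T x t with hI1
  set I2 : ℝ := ∫ t in (0 : ℝ)..T, G.PT T x t ^ 2 with hI2
  have cD := DD_cont hG hx0 hx1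
  have cP := PT_cont (G := G) hx0 T
  have hBe : B = T * (n ^ 2 * L ^ 2 / 4) - n * L * I1 + I2 := by
    have e : ∀ t : ℝ, (n * L / 2 - G.PT T x t) ^ 2 = n ^ 2 * L ^ 2 / 4 - n * L * G.PT T x t + G.PT T x t ^ 2 := fun t => by ring
    rw [hB, intervalIntegral.integral_congr (g := fun t => n ^ 2 * L ^ 2 / 4 - n * L * G.PT T x t + G.PT T x t ^ 2)
      fun t _ => e t, intervalIntegral.integral_add, intervalIntegral.integral_sub,
      intervalIntegral.integral_const_mul, intervalIntegral.integral_const, smul_eq_mul]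
    · ring
    · exact intervalIntegrable_const
    · exact (cP.intervalIntegrable _ _).const_mul _
    · exact intervalIntegrable_const.sub ((cP.intervalIntegrable _ _).const_mul _)
    · exact (cP.pow 2).intervalIntegrable _ _
  have hAB : |A - B| ≤ η * B + (1 + 1 / η) * D2 := by
    have hu : ∀ t : ℝ, G.DD x t ^ 2 - (n * L / 2 - G.PT T x t) ^ 2 ≤
        η * (n * L / 2 - G.PT T x t) ^ 2 + (1 + 1 / η) * (G.DD x t - (n * L / 2 - G.PT T x t)) ^ 2 := by
      intro t
      set p := n * L / 2 - G.PT T x t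
      set q := G.DD x t - p with hq
      have e : G.DD x t = p + q := by rw [hq]; ring
      rw [e]
      have h3 : 2 * p * q ≤ η * p ^ 2 + 1 / η * q ^ 2 := by
        have h4 := sq_nonneg (η * p - q)
        have h5 : 0 ≤ (η * p - q) ^ 2 / η := div_nonneg h4 hη0.le
        have h6 : (η * p - q) ^ 2 / η = η * p ^ 2 - 2 * p * q + 1 / η * q ^ 2 := by
          field_simp
          ring
        linarith
      have h7 : (p + q) ^ 2 - p ^ 2 = 2 * p * q + q ^ 2 := by ring
      have h8 : η * p ^ 2 + (1 + 1 / η) * q ^ 2 = η * p ^ 2 + 1 / η * q ^ 2 + q ^ 2 := by ring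
      rw [h7, h8]
      linarith
    have hl : ∀ t : ℝ, -(η * (n * L / 2 - G.PT T x t) ^ 2 + (1 + 1 / η) * (G.DD x t - (n * L / 2 - G.PT T x t)) ^ 2) ≤
        G.DD x t ^ 2 - (n * L / 2 - G.PT T x t) ^ 2 := by
      intro t
      set p := n * L / 2 - G.PT T x t
      set q := G.DD x t - p with hq
      have e : G.DD x t = p + q := by rw [hq]; ring
      rw [e]
      have h3 : -(2 * p * q) ≤ η * p ^ 2 + 1 / η * q ^ 2 := by
        have h4 := sq_nonneg (η * p + q)
        have h5 : 0 ≤ (η * p + q) ^ 2 / η := div_nonneg h4 hη0.le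
        have h6 : (η * p + q) ^ 2 / η = η * p ^ 2 + 2 * p * q + 1 / η * q ^ 2 := by
          field_simp
          ring
        linarith
      have h7 : (p + q) ^ 2 - p ^ 2 = 2 * p * q + q ^ 2 := by ring
      have h8 : η * p ^ 2 + (1 + 1 / η) * q ^ 2 = η * p ^ 2 + 1 / η * q ^ 2 + q ^ 2 := by ring
      have h9 := sq_nonneg q
      rw [h7, h8]
      linarith
    have i1 : IntervalIntegrable (fun t => G.DD x t ^ 2 - (n * L / 2 - G.PT T x t) ^ 2) volume 0 T := by
      apply Continuous.intervalIntegrable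
      fun_prop
    have i2 : IntervalIntegrable (fun t => η * (n * L / 2 - G.PT T x t) ^ 2 +
        (1 + 1 / η) * (G.DD x t - (n * L / 2 - G.PT T x t)) ^ 2) volume 0 T := by
      apply Continuous.intervalIntegrable
      fun_prop
    have e1 : A - B = ∫ t in (0 : ℝ)..T, (G.DD x t ^ 2 - (n * L / 2 - G.PT T x t) ^ 2) := by
      rw [hAdef, hB, intervalIntegral.integral_sub]
      · exact (cD.pow 2).intervalIntegrable _ _
      · apply Continuous.intervalIntegrable
        fun_prop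
    have e2 : η * B + (1 + 1 / η) * D2 = ∫ t in (0 : ℝ)..T, (η * (n * L / 2 - G.PT T x t) ^ 2 +
        (1 + 1 / η) * (G.DD x t - (n * L / 2 - G.PT T x t)) ^ 2) := by
      rw [hB, hD2, intervalIntegral.integral_add, intervalIntegral.integral_const_mul,
        intervalIntegral.integral_const_mul]
      · apply Continuous.intervalIntegrable
        fun_prop
      · apply Continuous.intervalIntegrable
        fun_prop
    rw [e1, e2, abs_le]
    constructor
    · rw [← intervalIntegral.integral_neg]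
      exact intervalIntegral.integral_mono_on hTp.le i2.neg i1 fun t _ => hl t
    · exact intervalIntegral.integral_mono_on hTp.le i1 i2 fun t _ => hu t
  -- the error terms
  have hL4 : L ^ 4 ≤ T := by
    have : min ν 1 * T ≤ 1 * T := mul_le_mul_of_nonneg_right (min_le_right _ _) hTp.le
    linarith
  have hD2le : D2 ≤ (C1 + C2) * T := by
    have h3 : x * (K * Lg 0 + K * Lg T) ≤ a2 * (4 * K) := by
      have h4 : Lg 0 ≤ Lg T := by
        unfold Lg
        apply Real.log_le_log (by positivity)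
        simp
      have h5 : K * Lg 0 + K * Lg T ≤ 4 * K * L := by
        have h6 := mul_le_mul_of_nonneg_left (h4.trans hLg) hK0.le
        have h7 := mul_le_mul_of_nonneg_left hLg hK0.le
        linarith
      calc x * (K * Lg 0 + K * Lg T) ≤ x * (4 * K * L) := mul_le_mul_of_nonneg_left h5 hx0.le
        _ = a * (4 * K) := by rw [← hxL]; ring
        _ ≤ a2 * (4 * K) := mul_le_mul_of_nonneg_right ha.2 (by positivity)
    have h0 : 0 ≤ x * (K * Lg 0 + K * Lg T) := by
      have := one_le_Lg T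
      have := one_le_Lg 0
      positivity
    have h4 : (Ap + x * (K * Lg 0 + K * Lg T)) ^ 2 ≤ (Ap + a2 * (4 * K)) ^ 2 :=
      pow_le_pow_left₀ (by linarith) (by linarith) 2
    have h5 : 2 * ((C + K + n) * Lg T / x) ^ 2 ≤ C2 * L ^ 4 := by
      have h6 : (C + K + n) * Lg T / x ≤ (C + K + n) * 2 / a1 * L ^ 2 := by
        rw [mul_div_assoc]
        calc (C + K + n) * (Lg T / x) ≤ (C + K + n) * (2 / a1 * L ^ 2) :=
              mul_le_mul_of_nonneg_left hLgx (by positivity)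
          _ = _ := by ring
      have h7 : 0 ≤ (C + K + n) * Lg T / x := by
        have := one_le_Lg T
        positivity
      have h8 := pow_le_pow_left₀ h7 h6 2
      calc 2 * ((C + K + n) * Lg T / x) ^ 2 ≤ 2 * ((C + K + n) * 2 / a1 * L ^ 2) ^ 2 := by linarith
        _ = _ := by rw [hC2]; ring
    have h8 : C2 * L ^ 4 ≤ C2 * T := mul_le_mul_of_nonneg_left hL4 c2
    have h9 : (2 * (Ap + x * (K * Lg 0 + K * Lg T)) ^ 2 + 16 * n ^ 2) * T ≤ C1 * T :=
      mul_le_mul_of_nonneg_right (by rw [hC1]; linarith) hTp.le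
    linarith
  have hL24 : L ^ 2 ≤ L ^ 4 := pow_le_pow_right₀ hL1 (by norm_num)
  have e1 : |I1 - Real.pi * G.Ns T| ≤ C3 * (2 * T) := by
    refine hP1.trans ?_
    have h3 : 2 * K * Lg T / x ≤ 4 * K / a1 * L ^ 2 := by
      rw [mul_div_assoc]
      calc 2 * K * (Lg T / x) ≤ 2 * K * (2 / a1 * L ^ 2) := mul_le_mul_of_nonneg_left hLgx (by positivity)
        _ = _ := by ring
    have h4 : 4 * K / a1 * L ^ 2 ≤ 4 * K / a1 * T := mul_le_mul_of_nonneg_left (by linarith) (by positivity)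
    have h5 : 0 ≤ 4 * K / a1 * T := by positivity
    calc 2 * (2 * K * Lg T / x + x * G.Ns T) * (2 * Real.pi) ≤
          2 * (4 * K / a1 * T + (n + 1) * a2 * T) * (2 * Real.pi) := by
          apply mul_le_mul_of_nonneg_right _ (by positivity)
          linarith
      _ = C3 * T := by rw [hC3]; ring
      _ ≤ C3 * (2 * T) := mul_le_mul_of_nonneg_left (by linarith) c3
  have e2 : |I2 - T * L ^ 2 / 4 * Rr| ≤ C4 * (2 * T) := by
    refine hP2.trans ?_
    have h3 : 2 * K * Lg T / x ≤ 4 * K / a1 * L ^ 2 := by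
      rw [mul_div_assoc]
      calc 2 * K * (Lg T / x) ≤ 2 * K * (2 / a1 * L ^ 2) := mul_le_mul_of_nonneg_left hLgx (by positivity)
        _ = _ := by ring
    have h30 : 0 ≤ 2 * K * Lg T / x := by
      have := one_le_Lg T
      positivity
    have h4 : (2 * K * Lg T / x) ^ 2 ≤ (4 * K / a1) ^ 2 * T := by
      calc (2 * K * Lg T / x) ^ 2 ≤ (4 * K / a1 * L ^ 2) ^ 2 := pow_le_pow_left₀ h30 h3 2
        _ = (4 * K / a1) ^ 2 * L ^ 4 := by ring
        _ ≤ _ := mul_le_mul_of_nonneg_left hL4 (by positivity)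
    have h5 : x * (K * Lg T) ≤ 2 * K * a2 := by
      calc x * (K * Lg T) ≤ x * (K * (2 * L)) := by gcongr
        _ = 2 * K * a := by rw [← hxL]; ring
        _ ≤ _ := mul_le_mul_of_nonneg_left ha.2 (by positivity)
    have h50 : 0 ≤ x * (K * Lg T) := by
      have := one_le_Lg T
      positivity
    have h6 : x * (K * Lg T) * (x * G.Ns T) ≤ 2 * K * a2 * ((n + 1) * a2 * T) :=
      mul_le_mul h5 hxN (mul_nonneg hx0.le (Ns_nonneg T)) (by positivity)
    calc 2 * ((2 * K * Lg T / x) ^ 2 + x * (K * Lg T) * (x * G.Ns T)) * (2 * Real.pi) ≤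
          2 * ((4 * K / a1) ^ 2 * T + 2 * K * a2 * ((n + 1) * a2 * T)) * (2 * Real.pi) := by
          apply mul_le_mul_of_nonneg_right _ (by positivity)
          linarith
      _ = C4 * T := by rw [hC4]; ring
      _ ≤ C4 * (2 * T) := mul_le_mul_of_nonneg_left (by linarith) c4
  have e3 : |n * L * (Real.pi * G.Ns T) - n ^ 2 * (T * L ^ 2) / 2| ≤ n * ν * (T * L ^ 2) / 2 := by
    have h3 : n ^ 2 * (T * L ^ 2) / 2 = n * L * (Real.pi * (n * nT T)) := by rw [hnT]; field_simp
    have hnL : 0 < n * L := by positivity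
    rw [h3, ← mul_sub, ← mul_sub, abs_mul (n * L), abs_mul Real.pi, abs_of_pos hnL, abs_of_pos hpi]
    have h4 : |G.Ns T - n * nT T| ≤ ν * nT T := hN.trans (mul_le_mul_of_nonneg_right (min_le_left _ _) hnp.le)
    calc n * L * (Real.pi * |G.Ns T - n * nT T|) ≤ n * L * (Real.pi * (ν * nT T)) := by gcongr
      _ = n * ν * (T * L ^ 2) / 2 := by rw [hnT]; field_simp
  set Q : ℝ := T * L ^ 2 with hQ
  have hQ0 : 0 < Q := by positivity
  have hTQ : T * L ≤ ν * Q := by
    have : T * L * 1 ≤ T * L * (ν * L) := mul_le_mul_of_nonneg_left hLν (by positivity)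
    calc T * L = T * L * 1 := by ring
      _ ≤ T * L * (ν * L) := this
      _ = _ := by rw [hQ]; ring
  have hTQ2 : T ≤ ν * Q := by
    have : T * 1 ≤ T * L := mul_le_mul_of_nonneg_left hL1 hTp.le
    linarith
  have hBB : |B - T * L ^ 2 / 4 * (Rr - n ^ 2)| ≤ ε / 4 * Q := by
    have h3 : B - T * L ^ 2 / 4 * (Rr - n ^ 2) = -(n * L * (Real.pi * G.Ns T) - n ^ 2 * (T * L ^ 2) / 2) -
        n * (L * (I1 - Real.pi * G.Ns T)) + (I2 - T * L ^ 2 / 4 * Rr) := by rw [hBe]; ring
    have h4 : |n * (L * (I1 - Real.pi * G.Ns T))| ≤ n * (C3 * (2 * (ν * Q))) := by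
      rw [abs_mul, abs_mul, abs_of_pos hLp, abs_of_pos hn0]
      calc n * (L * |I1 - Real.pi * G.Ns T|) ≤ n * (L * (C3 * (2 * T))) :=
            mul_le_mul_of_nonneg_left (mul_le_mul_of_nonneg_left e1 hLp.le) hn0.le
        _ = n * (C3 * (2 * (T * L))) := by ring
        _ ≤ _ := by gcongr
    have h5 : C4 * (2 * T) ≤ C4 * (2 * (ν * Q)) := by gcongr
    have h6 : ν * (2 * (n * C3) + 2 * C4) * Q ≤ ε / 8 * Q := mul_le_mul_of_nonneg_right hν2 hQ0.le
    have h7 : n * ν * Q ≤ ε / 8 * Q := mul_le_mul_of_nonneg_right hν3 hQ0.le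
    rw [h3]
    rw [abs_le] at e2 e3 h4 ⊢
    constructor <;> linarith [e2.1, e2.2, e3.1, e3.2, h4.1, h4.2]
  have hBle : B ≤ (R + 2) * Q := by
    have h3 := (abs_le.1 hBB).2
    have h4 : T * L ^ 2 / 4 * (Rr - n ^ 2) ≤ R * Q := by
      calc T * L ^ 2 / 4 * (Rr - n ^ 2) ≤ T * L ^ 2 / 4 * R :=
            mul_le_mul_of_nonneg_left (by have := sq_nonneg n; linarith) (by positivity)
        _ = R * Q / 4 := by rw [hQ]; ring
        _ ≤ R * Q := by
            have : 0 ≤ R * Q := by positivity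
            linarith
    have h5 : ε / 4 * Q ≤ 2 * Q := mul_le_mul_of_nonneg_right (by linarith) hQ0.le
    have h6 : (R + 2) * Q = R * Q + 2 * Q := by ring
    rw [h6]
    linarith
  have h3 : η * B ≤ ε / 8 * Q := by
    calc η * B ≤ η * ((R + 2) * Q) := mul_le_mul_of_nonneg_left hBle hη0.le
      _ = η * (R + 2) * Q := by ring
      _ ≤ _ := mul_le_mul_of_nonneg_right hη1 hQ0.le
  have h4 : (1 + 1 / η) * D2 ≤ ε / 8 * Q := by
    calc (1 + 1 / η) * D2 ≤ (1 + 1 / η) * ((C1 + C2) * T) := mul_le_mul_of_nonneg_left hD2le (by positivity)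
      _ ≤ (1 + 1 / η) * ((C1 + C2) * (ν * Q)) := by gcongr
      _ = ν * ((1 + 1 / η) * (C1 + C2)) * Q := by ring
      _ ≤ _ := mul_le_mul_of_nonneg_right hν1 hQ0.le
  have h5 : 0 ≤ ε * Q := by positivity
  rw [abs_le] at hAB hBB ⊢
  constructor <;> linarith [hAB.1, hAB.2, hBB.1, hBB.2]

/-- **the mean square of the real part of the logarithmic derivative** -/
theorem t_PM : S_PM := by
  intro G hG hCr a1 a2 ε h1 h12 hε
  filter_upwards [pair_mean_aux hG hCr h1 h12 (ε := min ε 1) (by positivity) (min_le_right _ _),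
    eventually_ge_atTop (0 : ℝ)] with T h hT a ha
  exact (h a ha).trans (mul_le_mul_of_nonneg_right (min_le_left _ _) (by positivity))

end Pool.Agent.Q257.GX
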