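import Pool.Agent.Q260.GX.Spec

set_option autoImplicit false

/-!
# GX-PM: the finite Poisson sums
-/

namespace Pool.Agent.Q257.GX

open MeasureTheory Filter Topology Set Complex
open Pool.Agent.Y23 (Lg one_le_Lg)
open Pool.Agent.Y749.Rig (nT nT_pos)
open Pool.Agent.Q260.GM (pk sx LL kk h0 kT pk_nonneg pk_le pk_cont pk_hasInt W_int cut log_sq_le int_sqrt)
open Pool.Agent.Q260.GX

variable {G : Dat}

lemma Ns_nonneg (T : ℝ) : 0 ≤ G.Ns T := Finset.sum_nonneg fun _ _ => Nat.cast_nonneg _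

lemma nT_eq (T : ℝ) : nT T = T * Real.log T / (2 * Real.pi) := rfl

lemma Ns_asymp (hG : G.Good) {ε : ℝ} (hε : 0 < ε) : ∀ᶠ T in atTop, |G.Ns T - G.n * nT T| ≤ ε * nT T := by
  have hpi := Real.pi_pos
  have h := (Metric.tendsto_atTop.1 hG.cnt) (ε / (2 * Real.pi)) (by positivity)
  obtain ⟨T0, hT0⟩ := h
  filter_upwards [eventually_ge_atTop T0, eventually_gt_atTop (1 : ℝ)] with T h1 h2
  have h3 := hT0 T h1
  rw [Real.dist_eq] at h3
  have hL : 0 < Real.log T := Real.log_pos h2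
  have hTL : 0 < T * Real.log T := by positivity
  have e : G.Ns T - G.n * nT T = (G.Ns T / (T * Real.log T) - G.n / (2 * Real.pi)) * (T * Real.log T) := by
    rw [nT_eq]
    field_simp
  rw [e, abs_mul, abs_of_pos hTL]
  calc |G.Ns T / (T * Real.log T) - G.n / (2 * Real.pi)| * (T * Real.log T) ≤
      ε / (2 * Real.pi) * (T * Real.log T) := mul_le_mul_of_nonneg_right h3.le hTL.le
    _ = ε * nT T := by rw [nT_eq]; ring

lemma PT_cont {x : ℝ} (hx : 0 < x) (T : ℝ) : Continuous (G.PT T x) := by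
  unfold Dat.PT
  exact continuous_finsetSum _ fun s _ => continuous_const.mul (pk_cont hx _)

lemma PT_nonneg {x : ℝ} (hx : 0 ≤ x) (T t : ℝ) : 0 ≤ G.PT T x t :=
  Finset.sum_nonneg fun s _ => mul_nonneg (Nat.cast_nonneg _) (pk_nonneg hx _)

lemma PT_int {x : ℝ} (hx : 0 < x) (T : ℝ) : Integrable (G.PT T x) ∧ ∫ t, G.PT T x t = Real.pi * G.Ns T := by
  have hi : ∀ s ∈ G.FZ T, Integrable (fun t : ℝ => (G.mu s : ℝ) * pk x (t - G.ga s)) :=
    fun s _ => (pk_hasInt hx (G.ga s)).1.const_mul _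
  refine ⟨integrable_finsetSum _ hi, ?_⟩
  unfold Dat.PT Dat.Ns
  rw [integral_finsetSum _ hi, Finset.mul_sum]
  refine Finset.sum_congr rfl fun s _ => ?_
  rw [integral_const_mul, (pk_hasInt hx (G.ga s)).2, mul_comm]

lemma PT_sq {x : ℝ} (hx : 0 < x) (T : ℝ) : Integrable (fun t => G.PT T x t ^ 2) ∧
    ∫ t, G.PT T x t ^ 2 = ∑ s ∈ G.FZ T, ∑ s' ∈ G.FZ T,
      (G.mu s : ℝ) * (G.mu s' : ℝ) * (2 * Real.pi * x / (4 * x ^ 2 + (G.ga s - G.ga s') ^ 2)) := by
  have e : (fun t => G.PT T x t ^ 2) = fun t => ∑ s ∈ G.FZ T,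
      ∑ s' ∈ G.FZ T, (G.mu s : ℝ) * (G.mu s' : ℝ) * (pk x (t - G.ga s) * pk x (t - G.ga s')) := by
    funext t
    unfold Dat.PT
    rw [sq, Finset.sum_mul_sum]
    refine Finset.sum_congr rfl fun s _ => Finset.sum_congr rfl fun s' _ => ?_
    ring
  have hi : ∀ s s' : G.ι, Integrable (fun t : ℝ => (G.mu s : ℝ) * (G.mu s' : ℝ) * (pk x (t - G.ga s) * pk x (t - G.ga s'))) :=
    fun s s' => (Pool.Agent.Q184.GM.cauchy_conv hx (G.ga s) (G.ga s')).1.const_mul _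
  rw [e]
  refine ⟨integrable_finsetSum _ fun s _ => integrable_finsetSum _ fun s' _ => hi s s', ?_⟩
  rw [integral_finsetSum _ fun s _ => integrable_finsetSum _ fun s' _ => hi s s']
  refine Finset.sum_congr rfl fun s _ => ?_
  rw [integral_finsetSum _ fun s' _ => hi s s']
  refine Finset.sum_congr rfl fun s' _ => ?_
  rw [integral_const_mul]
  congr 1
  exact (Pool.Agent.Q184.GM.cauchy_conv hx (G.ga s) (G.ga s')).2

/-- the mean square of the finite Poisson sum and the pair measure -/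
lemma PT_pair {T : ℝ} (hT : 10 ≤ T) {a : ℝ} (ha : 0 < a) :
    ∫ t, G.PT T (a / Real.log T) t ^ 2 = T * Real.log T ^ 2 / 4 * G.RR a T := by
  have hn := nT_pos hT
  have hL : 0 < Real.log T := Real.log_pos (by linarith)
  have hpi := Real.pi_pos
  have hT0 : 0 < T := by linarith
  rw [(PT_sq (div_pos ha hL) T).2]
  have e : ∑ s ∈ G.FZ T, ∑ s' ∈ G.FZ T, (G.mu s : ℝ) * (G.mu s' : ℝ) *
      (2 * Real.pi * (a / Real.log T) / (4 * (a / Real.log T) ^ 2 + (G.ga s - G.ga s') ^ 2)) =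
      Real.pi / 2 * G.QQ (a / Real.log T) T := by
    unfold Dat.QQ
    rw [Finset.mul_sum]
    refine Finset.sum_congr rfl fun s _ => ?_
    rw [Finset.mul_sum]
    refine Finset.sum_congr rfl fun s' _ => ?_
    ring
  rw [e]
  unfold Dat.RR
  rw [nT_eq]
  field_simp
  ring

lemma fin_set (hG : G.Good) (T : ℝ) : {i : G.ι | 0 ≤ G.ga i ∧ G.ga i ≤ T}.Finite := by
  have h := (hG.zs 0).tendsto_cofinite_zero
  have h1 : ∀ᶠ i in cofinite, (G.mu i : ℝ) * (1 / (1 + (G.ga i - 0) ^ 2)) < 1 / (1 + T ^ 2) :=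
    h.eventually (gt_mem_nhds (by positivity))
  refine (Filter.eventually_cofinite.1 h1).subset fun i hi => ?_
  simp only [mem_ofPred_eq, not_lt]
  have h2 : (1 : ℝ) ≤ G.mu i := by exact_mod_cast hG.mu_pos i
  have h3 : 1 / (1 + T ^ 2) ≤ 1 / (1 + (G.ga i - 0) ^ 2) := by
    apply one_div_le_one_div_of_le (by positivity)
    have := hi.1
    have := hi.2
    nlinarith
  have h4 : 0 ≤ 1 / (1 + (G.ga i - 0) ^ 2) := by positivity
  nlinarith

lemma mem_FZ (hG : G.Good) {T : ℝ} (ρ : G.ι) : ρ ∈ G.FZ T ↔ 0 ≤ G.ga ρ ∧ G.ga ρ ≤ T := by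
  classical
  unfold Dat.FZ
  rw [dif_pos (fin_set hG T), Set.Finite.mem_toFinset]
  rfl

lemma pz_summ (hG : G.Good) {x : ℝ} (hx : 0 < x) (h1 : x ≤ 1) (t : ℝ) :
    Summable (fun ρ : G.ι => (G.mu ρ : ℝ) * pk x (t - G.ga ρ)) := by
  refine Summable.of_nonneg_of_le (fun ρ => mul_nonneg (Nat.cast_nonneg _) (pk_nonneg hx.le _))
    (fun ρ => ?_) ((hG.zs t).mul_left (1 / x))
  calc (G.mu ρ : ℝ) * pk x (t - G.ga ρ) ≤ (G.mu ρ : ℝ) * (1 / x * (1 / (1 + (t - G.ga ρ) ^ 2))) :=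
        mul_le_mul_of_nonneg_left (pk_le hx h1 _) (Nat.cast_nonneg _)
    _ = _ := by rw [← neg_sub t, neg_sq]; ring

lemma fin_le (hG : G.Good) : ∃ K : ℝ, 0 < K ∧ (∀ t : ℝ,
    ∑' ρ : G.ι, (G.mu ρ : ℝ) * (1 / (1 + (G.ga ρ - t) ^ 2)) ≤ K * Lg t) ∧ ∀ T t : ℝ,
    ∑ s ∈ G.FZ T, (G.mu s : ℝ) * (1 / (1 + (G.ga s - t) ^ 2)) ≤ K * Lg t := by
  obtain ⟨K, hK, h⟩ := hG.zl
  refine ⟨K, hK, h, fun T t => ?_⟩
  refine le_trans ?_ (h t)
  exact (hG.zs t).sum_le_tsum _ fun ρ _ => mul_nonneg (Nat.cast_nonneg _) (by positivity)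

lemma PT_le_Pz (hG : G.Good) {x : ℝ} (hx : 0 < x) (h1 : x ≤ 1) (T t : ℝ) : G.PT T x t ≤ G.Pz x t := by
  unfold Dat.PT Dat.Pz
  exact (pz_summ hG hx h1 t).sum_le_tsum _ fun ρ _ => mul_nonneg (Nat.cast_nonneg _) (pk_nonneg hx.le _)

lemma Pz_le (hG : G.Good) {K : ℝ} (hK : ∀ t : ℝ,
    ∑' ρ : G.ι, (G.mu ρ : ℝ) * (1 / (1 + (G.ga ρ - t) ^ 2)) ≤ K * Lg t) {x : ℝ} (hx : 0 < x)
    (h1 : x ≤ 1) (t : ℝ) : G.Pz x t ≤ K * Lg t / x := by
  unfold Dat.Pz
  have h2 : ∑' ρ : G.ι, (G.mu ρ : ℝ) * pk x (t - G.ga ρ) ≤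
      ∑' ρ : G.ι, 1 / x * ((G.mu ρ : ℝ) * (1 / (1 + (G.ga ρ - t) ^ 2))) := by
    refine (pz_summ hG hx h1 t).tsum_le_tsum (fun ρ => ?_) ((hG.zs t).mul_left _)
    calc (G.mu ρ : ℝ) * pk x (t - G.ga ρ) ≤ (G.mu ρ : ℝ) * (1 / x * (1 / (1 + (t - G.ga ρ) ^ 2))) :=
          mul_le_mul_of_nonneg_left (pk_le hx h1 _) (Nat.cast_nonneg _)
      _ = _ := by rw [← neg_sub t, neg_sq]; ring
  rw [tsum_mul_left] at h2
  refine h2.trans ?_
  calc 1 / x * _ ≤ 1 / x * (K * Lg t) := mul_le_mul_of_nonneg_left (hK t) (by positivity)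
    _ = _ := by ring

/-- the contribution of the other zeros in the interior is small -/
lemma Pz_out (hG : G.Good) {K : ℝ} (hK : ∀ t : ℝ,
    ∑' ρ : G.ι, (G.mu ρ : ℝ) * (1 / (1 + (G.ga ρ - t) ^ 2)) ≤ K * Lg t) {x : ℝ} (hx : 0 < x)
    (h1 : x ≤ 1) {T t : ℝ} (ht : 1 ≤ t) (hT : t ≤ T - 1) :
    G.Pz x t - G.PT T x t ≤ x * (K * Lg 0 + K * Lg T) := by
  classical
  have hs := pz_summ hG hx h1 t
  have e : G.Pz x t = G.PT T x t + ∑' ρ : G.ι, (if ρ ∈ G.FZ T then 0 else (G.mu ρ : ℝ) * pk x (t - G.ga ρ)) := by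
    unfold Dat.PT Dat.Pz
    have s1 : Summable (fun ρ : G.ι => if ρ ∈ G.FZ T then (G.mu ρ : ℝ) * pk x (t - G.ga ρ) else 0) :=
      summable_of_ne_finset_zero (s := G.FZ T) fun ρ hρ => by rw [if_neg hρ]
    have s2 : Summable (fun ρ : G.ι => if ρ ∈ G.FZ T then 0 else (G.mu ρ : ℝ) * pk x (t - G.ga ρ)) :=
      Summable.of_nonneg_of_le (fun ρ => by
        split_ifs
        · exact le_rfl
        · exact mul_nonneg (Nat.cast_nonneg _) (pk_nonneg hx.le _)) (fun ρ => by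
        split_ifs
        · exact mul_nonneg (Nat.cast_nonneg _) (pk_nonneg hx.le _)
        · exact le_rfl) hs
    have e1 : ∑ ρ ∈ G.FZ T, (G.mu ρ : ℝ) * pk x (t - G.ga ρ) =
        ∑' ρ : G.ι, if ρ ∈ G.FZ T then (G.mu ρ : ℝ) * pk x (t - G.ga ρ) else 0 := by
      rw [tsum_eq_sum (s := G.FZ T) fun ρ hρ => by rw [if_neg hρ]]
      refine Finset.sum_congr rfl fun ρ hρ => ?_
      rw [if_pos hρ]
    rw [e1, ← s1.tsum_add s2]
    refine tsum_congr fun ρ => ?_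
    split_ifs <;> simp
  rw [e, add_sub_cancel_left]
  have hb : ∀ ρ : G.ι, (if ρ ∈ G.FZ T then 0 else (G.mu ρ : ℝ) * pk x (t - G.ga ρ)) ≤
      x * ((G.mu ρ : ℝ) * (1 / (1 + (G.ga ρ - 0) ^ 2)) + (G.mu ρ : ℝ) * (1 / (1 + (G.ga ρ - T) ^ 2))) := by
    intro ρ
    set γ := G.ga ρ with hγ
    have p1 : 0 ≤ (G.mu ρ : ℝ) * (1 / (1 + (γ - 0) ^ 2)) := mul_nonneg (Nat.cast_nonneg _) (by positivity)
    have p2 : 0 ≤ (G.mu ρ : ℝ) * (1 / (1 + (γ - T) ^ 2)) := mul_nonneg (Nat.cast_nonneg _) (by positivity)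
    split_ifs with hρ
    · positivity
    · rw [mem_FZ hG, not_and_or, not_le, not_le] at hρ
      rcases hρ with h | h
      · have h3 : pk x (t - γ) ≤ x * (1 / (1 + (γ - 0) ^ 2)) := by
          unfold pk
          rw [mul_one_div]
          apply div_le_div_of_nonneg_left hx.le (by positivity)
          rw [← hγ] at h
          nlinarith [sq_nonneg x]
        have h4 := mul_le_mul_of_nonneg_left h3 (Nat.cast_nonneg (G.mu ρ) : (0 : ℝ) ≤ _)
        nlinarith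
      · have h3 : pk x (t - γ) ≤ x * (1 / (1 + (γ - T) ^ 2)) := by
          unfold pk
          rw [mul_one_div]
          apply div_le_div_of_nonneg_left hx.le (by positivity)
          rw [← hγ] at h
          nlinarith [sq_nonneg x]
        have h4 := mul_le_mul_of_nonneg_left h3 (Nat.cast_nonneg (G.mu ρ) : (0 : ℝ) ≤ _)
        nlinarith
  have hS : Summable (fun ρ : G.ι => x * ((G.mu ρ : ℝ) * (1 / (1 + (G.ga ρ - 0) ^ 2)) +
      (G.mu ρ : ℝ) * (1 / (1 + (G.ga ρ - T) ^ 2)))) := ((hG.zs 0).add (hG.zs T)).mul_left _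
  have s2 : Summable (fun ρ : G.ι => if ρ ∈ G.FZ T then 0 else (G.mu ρ : ℝ) * pk x (t - G.ga ρ)) :=
    Summable.of_nonneg_of_le (fun ρ => by
      split_ifs
      · exact le_rfl
      · exact mul_nonneg (Nat.cast_nonneg _) (pk_nonneg hx.le _)) hb hS
  refine (s2.tsum_le_tsum hb hS).trans ?_
  rw [tsum_mul_left, (hG.zs 0).tsum_add (hG.zs T)]
  exact mul_le_mul_of_nonneg_left (add_le_add (hK 0) (hK T)) hx.le

/-- outside `[0, T]` -/
lemma PT_edge (hG : G.Good) {K : ℝ} (hK0 : 0 < K) (hK : ∀ t : ℝ,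
    ∑' ρ : G.ι, (G.mu ρ : ℝ) * (1 / (1 + (G.ga ρ - t) ^ 2)) ≤ K * Lg t)
    (hF : ∀ T t : ℝ, ∑ s ∈ G.FZ T, (G.mu s : ℝ) * (1 / (1 + (G.ga s - t) ^ 2)) ≤ K * Lg t)
    {x : ℝ} (hx : 0 < x) (h1 : x ≤ 1) {T t : ℝ} (hT : 1 ≤ T) (ht : t ∉ Icc 0 T) :
    G.PT T x t ≤ 2 * (2 * K * Lg T / x + x * G.Ns T) * (1 / (1 + t ^ 2) + 1 / (1 + (t - T) ^ 2)) ∧
    G.PT T x t ^ 2 ≤ 2 * ((2 * K * Lg T / x) ^ 2 + x * (K * Lg T) * (x * G.Ns T)) *
      (1 / (1 + t ^ 2) + 1 / (1 + (t - T) ^ 2)) := by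
  have hL := one_le_Lg T
  have hN := Ns_nonneg (G := G) T
  have hP := PT_nonneg (G := G) hx.le T t
  -- the distance to the interval
  obtain ⟨v, hv0, hv1, hv2, hvt⟩ : ∃ v : ℝ, 0 < v ∧ (∀ γ : ℝ, 0 ≤ γ → γ ≤ T → v ^ 2 ≤ (t - γ) ^ 2) ∧
      (1 ≤ v → ∃ c : ℝ, (c = 0 ∨ c = T) ∧ ∀ γ : ℝ, 0 ≤ γ → γ ≤ T → 1 + (γ - c) ^ 2 ≤ (t - γ) ^ 2) ∧
      1 / (1 + v ^ 2) ≤ 1 / (1 + t ^ 2) + 1 / (1 + (t - T) ^ 2) ∧ (v < 1 → |t| ≤ 1 + T) := by
    rw [mem_Icc, not_and_or, not_le, not_le] at ht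
    rcases ht with h | h
    · refine ⟨-t, by linarith, fun γ g0 g1 => by nlinarith, fun hv => ⟨0, Or.inl rfl, fun γ g0 g1 => by nlinarith⟩,
        ?_, fun hv => ?_⟩
      · rw [neg_sq]
        have : 0 ≤ 1 / (1 + (t - T) ^ 2) := by positivity
        linarith
      · rw [abs_of_neg h]; linarith
    · refine ⟨t - T, by linarith, fun γ g0 g1 => by nlinarith, fun hv => ⟨T, Or.inr rfl, fun γ g0 g1 => by nlinarith⟩,
        ?_, fun hv => ?_⟩
      · have : 0 ≤ 1 / (1 + t ^ 2) := by positivity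
        linarith
      · rw [abs_of_pos (by linarith)]; linarith
  obtain ⟨hvt, hvl⟩ := hvt
  set W := 1 / (1 + t ^ 2) + 1 / (1 + (t - T) ^ 2) with hW
  have hW0 : 0 ≤ W := by positivity
  have hA : 0 ≤ 2 * K * Lg T / x := by positivity
  rcases lt_or_ge v 1 with hv | hv
  · have h2 := (PT_le_Pz hG hx h1 T t).trans (Pz_le hG hK hx h1 t)
    have h3 : Lg t ≤ 2 * Lg T := by
      have h4 : 3 + |t| ≤ (3 + |T|) ^ 2 := by
        have := hvl hv
        have := le_abs_self T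
        nlinarith
      have h5 := Real.log_le_log (by positivity) h4
      rw [Real.log_pow] at h5
      exact_mod_cast h5
    have h4 : G.PT T x t ≤ 2 * K * Lg T / x := by
      refine h2.trans ?_
      apply div_le_div_of_nonneg_right _ hx.le
      nlinarith
    have h5 : 1 / 2 ≤ W := by
      refine le_trans ?_ hvt
      rw [div_le_div_iff₀ two_pos (by positivity)]
      nlinarith
    constructor
    · have : 0 ≤ x * G.Ns T := by positivity
      nlinarith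
    · have h6 : G.PT T x t ^ 2 ≤ (2 * K * Lg T / x) ^ 2 := pow_le_pow_left₀ hP h4 2
      have : 0 ≤ x * (K * Lg T) * (x * G.Ns T) := by positivity
      nlinarith
  · have h2 : G.PT T x t ≤ x * G.Ns T * (1 / v ^ 2) := by
      unfold Dat.PT Dat.Ns
      rw [Finset.mul_sum, Finset.sum_mul]
      refine Finset.sum_le_sum fun s hs => ?_
      have hz := (mem_FZ hG s).1 hs
      have h3 : pk x (t - G.ga s) ≤ x * (1 / v ^ 2) := by
        unfold pk
        rw [mul_one_div]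
        apply div_le_div_of_nonneg_left hx.le (by positivity)
        have := hv1 (G.ga s) hz.1 hz.2
        nlinarith [sq_nonneg x]
      have := mul_le_mul_of_nonneg_left h3 ((Nat.cast_nonneg (G.mu s) : (0 : ℝ) ≤ _))
      linarith
    obtain ⟨c, hc, hc2⟩ := hv2 hv
    have hc3 : Lg c ≤ Lg T := by
      rcases hc with rfl | rfl
      · unfold Lg
        apply Real.log_le_log (by positivity)
        simp
      · exact le_rfl
    have h3 : G.PT T x t ≤ x * (K * Lg T) := by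
      have h4 : G.PT T x t ≤ x * ∑ s ∈ G.FZ T, (G.mu s : ℝ) * (1 / (1 + (G.ga s - c) ^ 2)) := by
        unfold Dat.PT
        rw [Finset.mul_sum]
        refine Finset.sum_le_sum fun s hs => ?_
        have hz := (mem_FZ hG s).1 hs
        have h3 : pk x (t - G.ga s) ≤ x * (1 / (1 + (G.ga s - c) ^ 2)) := by
          unfold pk
          rw [mul_one_div]
          apply div_le_div_of_nonneg_left hx.le (by positivity)
          have := hc2 (G.ga s) hz.1 hz.2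
          nlinarith [sq_nonneg x]
        have := mul_le_mul_of_nonneg_left h3 ((Nat.cast_nonneg (G.mu s) : (0 : ℝ) ≤ _))
        linarith
      refine h4.trans (mul_le_mul_of_nonneg_left ?_ hx.le)
      refine (hF T c).trans ?_
      exact mul_le_mul_of_nonneg_left hc3 hK0.le
    have h4 : 1 / v ^ 2 ≤ 2 * W := by
      have : 1 / v ^ 2 ≤ 2 * (1 / (1 + v ^ 2)) := by
        rw [mul_one_div, div_le_div_iff₀ (by positivity) (by positivity)]
        nlinarith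
      linarith
    constructor
    · have : x * G.Ns T * (1 / v ^ 2) ≤ x * G.Ns T * (2 * W) := mul_le_mul_of_nonneg_left h4 (by positivity)
      have h6 : 0 ≤ 2 * K * Lg T / x * W := by positivity
      nlinarith
    · have h5 : G.PT T x t ^ 2 ≤ x * (K * Lg T) * (x * G.Ns T * (1 / v ^ 2)) := by
        rw [sq]
        exact mul_le_mul h3 h2 hP (by positivity)
      have h6 : x * (K * Lg T) * (x * G.Ns T * (1 / v ^ 2)) ≤ x * (K * Lg T) * (x * G.Ns T * (2 * W)) := by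
        apply mul_le_mul_of_nonneg_left _ (by positivity)
        exact mul_le_mul_of_nonneg_left h4 (by positivity)
      have h7 : 0 ≤ (2 * K * Lg T / x) ^ 2 * W := by positivity
      nlinarith

/-- the sum of the constants -/
lemma PT_cut (hG : G.Good) {K : ℝ} (hK0 : 0 < K) (hK : ∀ t : ℝ,
    ∑' ρ : G.ι, (G.mu ρ : ℝ) * (1 / (1 + (G.ga ρ - t) ^ 2)) ≤ K * Lg t)
    (hF : ∀ T t : ℝ, ∑ s ∈ G.FZ T, (G.mu s : ℝ) * (1 / (1 + (G.ga s - t) ^ 2)) ≤ K * Lg t)
    {x : ℝ} (hx : 0 < x) (h1 : x ≤ 1) {T : ℝ} (hT : 1 ≤ T) :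
    |(∫ t in (0 : ℝ)..T, G.PT T x t) - Real.pi * G.Ns T| ≤
      2 * (2 * K * Lg T / x + x * G.Ns T) * (2 * Real.pi) ∧
    |(∫ t in (0 : ℝ)..T, G.PT T x t ^ 2) - ∫ t, G.PT T x t ^ 2| ≤
      2 * ((2 * K * Lg T / x) ^ 2 + x * (K * Lg T) * (x * G.Ns T)) * (2 * Real.pi) := by
  have hL := one_le_Lg T
  have hN := Ns_nonneg (G := G) T
  constructor
  · rw [← (PT_int hx T).2]
    exact cut (PT_int hx T).1 (PT_nonneg hx.le T) (by positivity) (by linarith)
      fun t ht => (PT_edge hG hK0 hK hF hx h1 hT ht).1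
  · exact cut (PT_sq hx T).1 (fun t => sq_nonneg _) (by positivity) (by linarith)
      fun t ht => (PT_edge hG hK0 hK hF hx h1 hT ht).2

lemma DD_cont (hG : G.Good) {x : ℝ} (hx : 0 < x) (h1 : x ≤ 1 / 4) : Continuous (G.DD x) := by
  unfold Dat.DD
  exact (Complex.continuous_re.comp (hG.ldc x hx h1)).neg

lemma DD_abs (hG : G.Good) : ∃ C : ℝ, 0 < C ∧ ∀ x : ℝ, 0 < x → x ≤ 1 / 4 → ∀ t : ℝ,
    |G.DD x t| ≤ C * Lg t / x := by
  obtain ⟨C, hC, h⟩ := hG.ldb
  refine ⟨C, hC, fun x hx h1 t => ?_⟩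
  unfold Dat.DD
  rw [abs_neg]
  exact (Complex.abs_re_le_norm _).trans (h x hx h1 t)

/-- the error in the approximation in mean square -/
lemma delta_int (hG : G.Good) {K C A : ℝ} (hA : 0 ≤ A) (hAp : ∀ x : ℝ, 0 < x → x ≤ 1 / 4 → ∀ t : ℝ, 1 ≤ |t| →
    |G.DD x t - (G.n * Real.log |t| / 2 - G.Pz x t)| ≤ A) (hK0 : 0 < K) (hC : 0 < C) (hK : ∀ t : ℝ,
    ∑' ρ : G.ι, (G.mu ρ : ℝ) * (1 / (1 + (G.ga ρ - t) ^ 2)) ≤ K * Lg t)
    (hD : ∀ x : ℝ, 0 < x → x ≤ 1 / 4 → ∀ t : ℝ, |G.DD x t| ≤ C * Lg t / x)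
    {x : ℝ} (hx : 0 < x) (h1 : x ≤ 1 / 4) {T : ℝ} (hT : 2 ≤ T) :
    ∫ t in (0 : ℝ)..T, (G.DD x t - (G.n * Real.log T / 2 - G.PT T x t)) ^ 2 ≤
      (2 * (A + x * (K * Lg 0 + K * Lg T)) ^ 2 + 16 * G.n ^ 2) * T + 2 * ((C + K + G.n) * Lg T / x) ^ 2 := by
  have hL := one_le_Lg T
  have hL0 := one_le_Lg 0
  set d : ℝ → ℝ := fun t => G.DD x t - (G.n * Real.log T / 2 - G.PT T x t) with hd
  have hdc : Continuous d := (DD_cont hG hx h1).sub (continuous_const.sub (PT_cont hx T))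
  set B0 : ℝ := A + x * (K * Lg 0 + K * Lg T) with hB0
  have hn1 : 1 ≤ G.n := hG.n_pos
  set M : ℝ := (C + K + G.n) * Lg T / x with hM
  have hM0 : 0 ≤ M := by positivity
  have hB00 : 0 ≤ B0 := by positivity
  have hlogT : 0 ≤ Real.log T := Real.log_nonneg (by linarith)
  have crude : ∀ t : ℝ, 0 ≤ t → t ≤ T → d t ^ 2 ≤ M ^ 2 := by
    intro t t0 t1
    have hm : Lg t ≤ Lg T := by
      unfold Lg
      apply Real.log_le_log (by positivity)
      rw [abs_of_nonneg t0, abs_of_nonneg (by linarith)]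
      linarith
    have a1 : |G.DD x t| ≤ C * Lg T / x := (hD x hx h1 t).trans (by
      apply div_le_div_of_nonneg_right _ hx.le
      exact mul_le_mul_of_nonneg_left hm hC.le)
    have a2 : G.PT T x t ≤ K * Lg T / x := ((PT_le_Pz hG hx (by linarith) T t).trans
      (Pz_le hG hK hx (by linarith) t)).trans (by
      apply div_le_div_of_nonneg_right _ hx.le
      exact mul_le_mul_of_nonneg_left hm hK0.le)
    have a3 : 0 ≤ G.PT T x t := PT_nonneg hx.le T t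
    have a4 : Real.log T ≤ Lg T / x := by
      have h5 : Real.log T ≤ Lg T := by
        unfold Lg
        apply Real.log_le_log (by linarith)
        rw [abs_of_nonneg (by linarith)]; linarith
      refine h5.trans ?_
      rw [le_div_iff₀ hx]
      nlinarith
    have a40 : 0 ≤ G.n * Real.log T := by positivity
    have a5 : G.n * Real.log T ≤ G.n * (Lg T / x) := mul_le_mul_of_nonneg_left a4 (by linarith)
    have e : M = C * Lg T / x + K * Lg T / x + G.n * (Lg T / x) := by rw [hM]; ring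
    apply sq_le_sq'
    · rw [abs_le] at a1
      simp only [hd]
      rw [e]
      have : 0 ≤ K * Lg T / x := by positivity
      linarith [a1.1]
    · rw [abs_le] at a1
      simp only [hd]
      rw [e]
      have : 0 ≤ G.n * (Lg T / x) := by positivity
      linarith [a1.2]
  have mid : ∀ t ∈ Icc (1 : ℝ) (T - 1), d t ^ 2 ≤ 2 * B0 ^ 2 + 8 * G.n ^ 2 * (Real.sqrt T * t ^ (-(1 / 2) : ℝ)) := by
    intro t ht
    have ht0 : 0 < t := by linarith [ht.1]
    have a1 := hAp x hx h1 t (by rw [abs_of_pos ht0]; exact ht.1)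
    rw [abs_of_pos ht0] at a1
    have a2 := Pz_out hG hK hx (by linarith) ht.1 ht.2
    have a3 := PT_le_Pz hG hx (by linarith : x ≤ 1) T t
    have a4 := log_sq_le ht0 (by linarith [ht.2] : t ≤ T)
    have a5 : 0 ≤ Real.log T - Real.log t := by
      have := Real.log_le_log ht0 (by linarith [ht.2] : t ≤ T)
      linarith
    have a6 : |d t| ≤ B0 + G.n * (Real.log T - Real.log t) / 2 := by
      have e : d t = (G.DD x t - (G.n * Real.log t / 2 - G.Pz x t)) - (G.Pz x t - G.PT T x t) -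
          G.n * (Real.log T - Real.log t) / 2 := by
        simp only [hd]; ring
      rw [e]
      have a50 : 0 ≤ G.n * (Real.log T - Real.log t) := mul_nonneg (by linarith) a5
      rw [abs_le] at a1 ⊢
      constructor <;> linarith [a1.1, a1.2]
    have a7 := pow_le_pow_left₀ (abs_nonneg _) a6 2
    rw [sq_abs] at a7
    have a8 := mul_le_mul_of_nonneg_left a4 (sq_nonneg G.n)
    nlinarith [sq_nonneg (B0 - G.n * (Real.log T - Real.log t) / 2)]
  have hdi : ∀ a b : ℝ, IntervalIntegrable (fun t => d t ^ 2) volume a b := fun a b =>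
    (hdc.pow 2).intervalIntegrable a b
  have e : ∫ t in (0 : ℝ)..T, d t ^ 2 = (∫ t in (0 : ℝ)..1, d t ^ 2) + (∫ t in (1 : ℝ)..(T - 1), d t ^ 2) +
      ∫ t in (T - 1)..T, d t ^ 2 := by
    rw [intervalIntegral.integral_add_adjacent_intervals (hdi _ _) (hdi _ _),
      intervalIntegral.integral_add_adjacent_intervals (hdi _ _) (hdi _ _)]
  have i1 : ∫ t in (0 : ℝ)..1, d t ^ 2 ≤ M ^ 2 := by
    have := intervalIntegral.integral_mono_on (zero_le_one) (hdi 0 1) (intervalIntegrable_const (c := M ^ 2))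
      fun t ht => crude t ht.1 (by linarith [ht.2])
    simpa using this
  have i3 : ∫ t in (T - 1)..T, d t ^ 2 ≤ M ^ 2 := by
    have := intervalIntegral.integral_mono_on (by linarith : T - 1 ≤ T) (hdi (T - 1) T) (intervalIntegrable_const (c := M ^ 2))
      fun t ht => crude t (by linarith [ht.1]) ht.2
    simpa using this
  have hci : IntervalIntegrable (fun t : ℝ => Real.sqrt T * t ^ (-(1 / 2) : ℝ)) volume 1 (T - 1) :=
    (intervalIntegral.intervalIntegrable_rpow' (by norm_num)).const_mul _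
  have i2 : ∫ t in (1 : ℝ)..(T - 1), d t ^ 2 ≤ 2 * B0 ^ 2 * T + 16 * G.n ^ 2 * T := by
    have h2 := intervalIntegral.integral_mono_on (by linarith : 1 ≤ T - 1) (hdi 1 (T - 1))
      ((intervalIntegrable_const (c := 2 * B0 ^ 2)).add (hci.const_mul (8 * G.n ^ 2))) mid
    rw [intervalIntegral.integral_add intervalIntegrable_const (hci.const_mul (8 * G.n ^ 2)),
      intervalIntegral.integral_const, smul_eq_mul, intervalIntegral.integral_const_mul] at h2
    have h3 := mul_le_mul_of_nonneg_left (int_sqrt hT) (by positivity : 0 ≤ 8 * G.n ^ 2)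
    nlinarith [sq_nonneg B0]
  show ∫ t in (0 : ℝ)..T, d t ^ 2 ≤ _
  rw [e]
  linarith

end Pool.Agent.Q257.GX
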