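import Pool.Agent.Q260.GX.Spec

set_option autoImplicit false

/-!
# GX-T1a: the mean square identity
-/

namespace Pool.Agent.Q257.GX.T1a

open MeasureTheory Filter Topology Set Complex
open Pool.Agent.Y23 (Lg one_le_Lg)
open Pool.Agent.Q260.GM (sx LL kk h0 int_Ioi_of_zero hs Es sx_ne_one sx_re sx_im h0_mul h0_abs h0_even h0_cont
  hs_eq exp_sub_one_le hs_sub sx_norm sx1_norm hs_sub_sq Es_sq w1 w1_nonneg Lg_cont w1_cont w1_int w1_ge h0_sq
  sx_cont sx_ne0)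
open Pool.Agent.Q260.GX

variable {G : Dat}

lemma DD_cont (hG : G.Good) {x : ℝ} (hx : 0 < x) (h1 : x ≤ 1 / 4) : Continuous (G.DD x) := by
  unfold Dat.DD
  exact (Complex.continuous_re.comp (hG.ldc x hx h1)).neg

lemma DD_abs (hG : G.Good) : ∃ C : ℝ, 0 < C ∧ ∀ x : ℝ, 0 < x → x ≤ 1 / 4 → ∀ t : ℝ,
    |G.DD x t| ≤ C * Lg t / x := by
  obtain ⟨C, hC, h⟩ := hG.ldb
  refine ⟨C, hC, fun x hx h1 t => ?_⟩
  unfold Dat.DD
  rw [abs_neg]
  exact (Complex.abs_re_le_norm _).trans (h x hx h1 t)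

lemma Dl_meas (hG : G.Good) (κ : ℝ) : Measurable (G.Dl κ) := by
  unfold Dat.Dl
  exact (by fun_prop : Measurable fun u : ℝ => Real.exp (-(u / 2))).mul
    ((hG.phm.comp (measurable_id.add_const κ)).sub hG.phm)

lemma ph_sq_int (hG : G.Good) {x : ℝ} (hx : 0 < x) :
    IntegrableOn (fun w => G.ph w ^ 2 * Real.exp (-((1 + 2 * x) * w))) (Ioi 0) := hG.l2 _ (by linarith)

lemma ph_sq_shift (hG : G.Good) {κ x : ℝ} (hκ : 0 < κ) (hx : 0 < x) :
    IntegrableOn (fun u => G.ph (u + κ) ^ 2 * Real.exp (-((1 + 2 * x) * (u + κ)))) (Ioi 0) := by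
  have h1 : IntegrableOn (fun w : ℝ => G.ph w ^ 2 * Real.exp (-((1 + 2 * x) * w))) (Ioi κ) :=
    (ph_sq_int hG hx).mono_set (Ioi_subset_Ioi hκ.le)
  have h2 := ((measurePreserving_add_right volume κ).integrableOn_comp_preimage
    (MeasurableEquiv.addRight κ).measurableEmbedding (s := Ioi κ)
    (f := fun w : ℝ => G.ph w ^ 2 * Real.exp (-((1 + 2 * x) * w)))).2 h1
  rw [preimage_add_const_Ioi, sub_self] at h2
  exact h2

lemma Dl_sq_int (hG : G.Good) {κ x : ℝ} (hκ : 0 < κ) (hx : 0 < x) :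
    IntegrableOn (fun u => G.Dl κ u ^ 2 * Real.exp (-(2 * x * u))) (Ioi 0) := by
  have h1 := ((ph_sq_shift hG hκ hx).const_mul (2 * Real.exp ((1 + 2 * x) * κ))).add
    ((ph_sq_int hG hx).const_mul 2)
  refine h1.mono' ?_ (ae_of_all _ fun u => ?_)
  · exact (((Dl_meas hG κ).pow_const 2).mul (by fun_prop)).aestronglyMeasurable
  · rw [Real.norm_eq_abs, abs_of_nonneg (by positivity)]
    show G.Dl κ u ^ 2 * Real.exp (-(2 * x * u)) ≤ 2 * Real.exp ((1 + 2 * x) * κ) *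
      (G.ph (u + κ) ^ 2 * Real.exp (-((1 + 2 * x) * (u + κ)))) + 2 * (G.ph u ^ 2 * Real.exp (-((1 + 2 * x) * u)))
    have e1 : Real.exp ((1 + 2 * x) * κ) * Real.exp (-((1 + 2 * x) * (u + κ))) =
        Real.exp (-((1 + 2 * x) * u)) := by
      rw [← Real.exp_add]; congr 1; ring
    have e2 : G.Dl κ u ^ 2 * Real.exp (-(2 * x * u)) =
        Real.exp (-((1 + 2 * x) * u)) * (G.ph (u + κ) - G.ph u) ^ 2 := by
      unfold Dat.Dl
      rw [mul_pow, ← Real.exp_nat_mul]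
      have : Real.exp (-((1 + 2 * x) * u)) = Real.exp (((2 : ℕ) : ℝ) * -(u / 2)) * Real.exp (-(2 * x * u)) := by
        rw [← Real.exp_add]; congr 1; push_cast; ring
      rw [this]; ring
    have e3 : 2 * Real.exp ((1 + 2 * x) * κ) * (G.ph (u + κ) ^ 2 * Real.exp (-((1 + 2 * x) * (u + κ)))) =
        2 * (Real.exp (-((1 + 2 * x) * u)) * G.ph (u + κ) ^ 2) := by
      rw [← e1]; ring
    rw [e2, e3]
    have h4 : (G.ph (u + κ) - G.ph u) ^ 2 ≤ 2 * G.ph (u + κ) ^ 2 + 2 * G.ph u ^ 2 := by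
      nlinarith [sq_nonneg (G.ph (u + κ) + G.ph u)]
    have h5 := mul_le_mul_of_nonneg_left h4 (Real.exp_pos (-((1 + 2 * x) * u))).le
    linarith

/-- the core of the shifted function -/
noncomputable def Fc (G : Dat) (κ x u : ℝ) : ℝ := Real.exp (-(κ / 4)) * G.Dl κ u * Real.exp (-(x * (u + κ / 2)))

/-- the shifted function -/
noncomputable def gt (G : Dat) (κ x v : ℝ) : ℝ := (Ioi (0 : ℝ)).indicator (Fc G κ x) (v - κ / 2)

lemma Fc_meas (hG : G.Good) (κ x : ℝ) : Measurable (Fc G κ x) := by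
  unfold Fc
  exact (measurable_const.mul (Dl_meas hG κ)).mul (by fun_prop)

lemma gt_zero {κ : ℝ} (hκ : 0 < κ) (x : ℝ) {v : ℝ} (hv : v ∉ Ioi (0 : ℝ)) : gt G κ x v = 0 := by
  unfold gt
  rw [indicator_of_notMem]
  rw [mem_Ioi, not_lt] at hv ⊢
  linarith

/-- integrals of the shifted function -/
lemma gt_integral {κ : ℝ} (hκ : 0 < κ) (x : ℝ) (w : ℝ → ℝ → ℝ) (hw : ∀ v, w 0 v = 0) :
    ∫ v in Ioi (0 : ℝ), w (gt G κ x v) v = ∫ u in Ioi (0 : ℝ), w (Fc G κ x u) (u + κ / 2) := by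
  rw [int_Ioi_of_zero fun v hv => by rw [gt_zero hκ x hv, hw],
    ← integral_add_right_eq_self (fun v => w (gt G κ x v) v) (κ / 2),
    ← integral_indicator measurableSet_Ioi]
  refine integral_congr_ae (ae_of_all _ fun u => ?_)
  simp only [gt, add_sub_cancel_right]
  by_cases h : u ∈ Ioi (0 : ℝ)
  · rw [indicator_of_mem h, indicator_of_mem h]
  · rw [indicator_of_notMem h, indicator_of_notMem h, hw]

lemma gt_integrable {κ x : ℝ} {w : ℝ → ℝ} (hw : w 0 = 0)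
    (h : IntegrableOn (fun u => w (Fc G κ x u)) (Ioi 0)) : Integrable (fun v => w (gt G κ x v)) := by
  have h1 : Integrable ((Ioi (0 : ℝ)).indicator fun u => w (Fc G κ x u)) :=
    h.integrable_indicator measurableSet_Ioi
  have h2 := h1.comp_sub_right (κ / 2)
  refine h2.congr (ae_of_all _ fun v => ?_)
  simp only [gt]
  by_cases h : v - κ / 2 ∈ Ioi (0 : ℝ)
  · rw [indicator_of_mem h, indicator_of_mem h]
  · rw [indicator_of_notMem h, indicator_of_notMem h, hw]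

lemma Fc_sq (κ x u : ℝ) : Fc G κ x u ^ 2 =
    Real.exp (-(κ * (1 / 2 + x))) * (G.Dl κ u ^ 2 * Real.exp (-(2 * x * u))) := by
  unfold Fc
  rw [mul_pow, mul_pow, ← Real.exp_nat_mul, ← Real.exp_nat_mul]
  have : Real.exp (((2 : ℕ) : ℝ) * -(κ / 4)) * Real.exp (((2 : ℕ) : ℝ) * -(x * (u + κ / 2))) =
      Real.exp (-(κ * (1 / 2 + x))) * Real.exp (-(2 * x * u)) := by
    rw [← Real.exp_add, ← Real.exp_add]; congr 1; push_cast; ring
  linear_combination G.Dl κ u ^ 2 * this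

lemma gt_sq (hG : G.Good) {κ x : ℝ} (hκ : 0 < κ) (hx : 0 < x) :
    IntegrableOn (fun v => gt G κ x v ^ 2) (Ioi 0) ∧ ∫ v in Ioi (0 : ℝ), gt G κ x v ^ 2 =
      Real.exp (-(κ * (1 / 2 + x))) * ∫ u in Ioi (0 : ℝ), G.Dl κ u ^ 2 * Real.exp (-(2 * x * u)) := by
  constructor
  · refine (gt_integrable (w := fun y => y ^ 2) (by norm_num) ?_).integrableOn
    simp only [Fc_sq]
    exact (Dl_sq_int hG hκ hx).const_mul _
  · rw [gt_integral hκ x (fun y _ => y ^ 2) (fun v => by norm_num)]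
    simp only [Fc_sq]
    rw [integral_const_mul]

/-- the cosine transform -/
lemma gt_cos (hG : G.Good) {κ x : ℝ} (hκ : 0 < κ) (hκ2 : κ ≤ 1 / 2) (hx : 0 < x) (h1 : x ≤ 1 / 4) (t : ℝ) :
    ∫ v in Ioi (0 : ℝ), gt G κ x v * Real.cos (t * v) =
      (-(hs κ (sx x t)) * G.LD (sx x t) - G.m * Es κ (sx x t)).re := by
  obtain ⟨hi, hv⟩ := hG.lap κ x t hκ hκ2 hx h1
  rw [gt_integral hκ x (fun y v => y * Real.cos (t * v)) (fun v => by ring)]
  have e1 : -(hs κ (sx x t)) * G.LD (sx x t) - G.m * Es κ (sx x t) =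
      cexp (-(κ * sx x t / 2)) * ∫ u in Ioi (0 : ℝ), (G.Dl κ u : ℂ) * cexp (-((x + t * I) * u)) := by
    rw [hv]; unfold hs Es; ring
  rw [e1, ← integral_const_mul]
  have hi2 := hi.const_mul (cexp (-(κ * sx x t / 2)))
  have e2 := Complex.reCLM.integral_comp_comm hi2
  simp only [Complex.reCLM_apply] at e2
  rw [← e2]
  refine integral_congr_ae (ae_of_all _ fun u => ?_)
  show Fc G κ x u * Real.cos (t * (u + κ / 2)) =
    (cexp (-(κ * sx x t / 2)) * ((G.Dl κ u : ℂ) * cexp (-((x + t * I) * u)))).re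
  have e3 : cexp (-(κ * sx x t / 2)) * ((G.Dl κ u : ℂ) * cexp (-((x + t * I) * u))) =
      ((Fc G κ x u : ℝ) : ℂ) * cexp ((-(t * (u + κ / 2)) : ℝ) * I) := by
    unfold Fc sx
    push_cast
    have : cexp (-(κ * ((1 / 2 + x) + t * I) / 2)) * cexp (-((x + t * I) * u)) =
        cexp (-(κ / 4)) * cexp (-(x * (u + κ / 2))) * cexp (-(t * (u + κ / 2)) * I) := by
      rw [← Complex.exp_add, ← Complex.exp_add, ← Complex.exp_add]; congr 1; ring
    linear_combination (G.Dl κ u : ℂ) * this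
  rw [e3, Complex.re_ofReal_mul, Complex.exp_ofReal_mul_I_re, Real.cos_neg]

/-- the exact transform -/
noncomputable def Pf (G : Dat) (κ x t : ℝ) : ℝ :=
  (-(hs κ (sx x t)) * G.LD (sx x t) - G.m * Es κ (sx x t)).re

lemma Pf_cont (hG : G.Good) {κ x : ℝ} (hx : 0 < x) (h1 : x ≤ 1 / 4) :
    Continuous (Pf G κ x) := by
  have c1 : Continuous fun t : ℝ => hs κ (sx x t) := by
    unfold hs
    have := sx_cont x
    exact (by fun_prop : Continuous fun t : ℝ => cexp (-(κ * sx x t / 2))).mul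
      ((by fun_prop : Continuous fun t : ℝ => cexp (κ * sx x t) - 1).div this (sx_ne0 hx))
  have c2 : Continuous fun t : ℝ => Es κ (sx x t) := by
    unfold Es
    have := sx_cont x
    exact (by fun_prop : Continuous fun t : ℝ => cexp (-(κ * sx x t / 2))).mul
      (continuous_const.div (this.sub continuous_const) fun t => sub_ne_zero.2 (sx_ne_one hx h1 t))
  exact Complex.continuous_re.comp ((c1.neg.mul (hG.ldc x hx h1)).sub (continuous_const.mul c2))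

lemma gt_intOn (hG : G.Good) {κ x : ℝ} (hκ : 0 < κ) (hκ2 : κ ≤ 1 / 2) (hx : 0 < x) (h1 : x ≤ 1 / 4) :
    IntegrableOn (gt G κ x) (Ioi 0) := by
  have h2 := (hG.lap κ x 0 hκ hκ2 hx h1).1.norm.const_mul (Real.exp (-(κ / 4)) * Real.exp (-(x * (κ / 2))))
  have h3 : IntegrableOn (fun u => (Fc G κ x u)) (Ioi 0) := by
    refine h2.mono' (Fc_meas hG κ x).aestronglyMeasurable (ae_of_all _ fun u => ?_)
    rw [norm_mul, Complex.norm_real, Complex.norm_exp, Real.norm_eq_abs, Real.norm_eq_abs]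
    have e1 : (-(((x : ℂ) + ((0 : ℝ) : ℂ) * I) * (u : ℂ))).re = -(x * u) := by simp
    rw [e1]
    unfold Fc
    rw [abs_mul, abs_mul, abs_of_pos (Real.exp_pos _), abs_of_pos (Real.exp_pos _)]
    have e2 : Real.exp (-(x * (u + κ / 2))) = Real.exp (-(x * (κ / 2))) * Real.exp (-(x * u)) := by
      rw [← Real.exp_add]; congr 1; ring
    rw [e2]
    apply le_of_eq
    ring
  exact (gt_integrable (w := fun y => y) rfl h3).integrableOn

/-- **the Plancherel formula** -/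
lemma S_planch (hG : G.Good) {κ x : ℝ} (hκ : 0 < κ) (hκ2 : κ ≤ 1 / 2) (hx : 0 < x) (h1 : x ≤ 1 / 4) :
    Integrable (fun t => Pf G κ x t ^ 2) ∧
    Real.exp (-(κ * (1 / 2 + x))) * (∫ u in Ioi (0 : ℝ), G.Dl κ u ^ 2 * Real.exp (-(2 * x * u))) =
      1 / Real.pi * ∫ t, Pf G κ x t ^ 2 := by
  have h2 := Pool.Agent.Q184.GM.cos_plancherel (gt_intOn hG hκ hκ2 hx h1) (gt_sq hG hκ hx).1
  rw [(gt_sq hG hκ hx).2] at h2
  have e : (fun t : ℝ => (∫ u in Ioi (0 : ℝ), gt G κ x u * Real.cos (t * u)) ^ 2) = fun t => Pf G κ x t ^ 2 := by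
    funext t
    rw [gt_cos hG hκ hκ2 hx h1 t]
    rfl
  rw [e] at h2
  exact h2

/-- the approximate transform -/
noncomputable def Qf (G : Dat) (κ x t : ℝ) : ℝ := h0 κ t * G.DD x t

lemma PQ_sub (hG : G.Good) : ∃ C : ℝ, 0 < C ∧ ∀ κ x : ℝ, 0 < κ → κ ≤ 1 / 2 → 0 < x →
    x ≤ 1 / 4 → ∀ t : ℝ, (Pf G κ x t - Qf G κ x t) ^ 2 ≤ C / x ^ 2 * κ ^ 2 * w1 t := by
  obtain ⟨C, hC, hLD⟩ := hG.ldb
  refine ⟨32 * C ^ 2 + 128, by positivity, fun κ x hκ hκ2 hx h1 t => ?_⟩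
  set Z := G.LD (sx x t) with hZ
  have hL := one_le_Lg t
  have e : Pf G κ x t - Qf G κ x t = (-(hs κ (sx x t) - (h0 κ t : ℂ)) * Z - G.m * Es κ (sx x t)).re := by
    unfold Pf Qf Dat.DD
    rw [← hZ]
    have e1 : h0 κ t * -Z.re = (-(h0 κ t : ℂ) * Z).re := by
      rw [neg_mul, neg_re, Complex.re_ofReal_mul]; ring
    rw [e1, ← sub_re]
    congr 1
    ring
  have b1 : |Pf G κ x t - Qf G κ x t| ≤ ‖hs κ (sx x t) - (h0 κ t : ℂ)‖ * (C * Lg t / x) + ‖Es κ (sx x t)‖ := by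
    rw [e]
    refine (Complex.abs_re_le_norm _).trans ((norm_sub_le _ _).trans ?_)
    rw [norm_mul, norm_neg]
    have := mul_le_mul_of_nonneg_left (hLD x hx h1 t) (norm_nonneg (hs κ (sx x t) - (h0 κ t : ℂ)))
    have hm : ‖(G.m : ℂ) * Es κ (sx x t)‖ ≤ ‖Es κ (sx x t)‖ := by
      rw [norm_mul, Complex.norm_real, Real.norm_eq_abs]
      have := mul_le_mul_of_nonneg_right hG.m_le (norm_nonneg (Es κ (sx x t)))
      linarith
    linarith
  have b2 := pow_le_pow_left₀ (abs_nonneg _) b1 2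
  rw [sq_abs] at b2
  have b3 := hs_sub_sq hκ hκ2 hx h1 t
  have b4 := Es_sq hκ hκ2 hx h1 t
  have b5 := w1_ge t
  refine b2.trans ?_
  have b6 : (‖hs κ (sx x t) - (h0 κ t : ℂ)‖ * (C * Lg t / x) + ‖Es κ (sx x t)‖) ^ 2 ≤
      2 * (‖hs κ (sx x t) - (h0 κ t : ℂ)‖ ^ 2 * (C * Lg t / x) ^ 2) + 2 * ‖Es κ (sx x t)‖ ^ 2 := by
    nlinarith [sq_nonneg (‖hs κ (sx x t) - (h0 κ t : ℂ)‖ * (C * Lg t / x) - ‖Es κ (sx x t)‖)]
  refine b6.trans ?_
  have b7 : ‖hs κ (sx x t) - (h0 κ t : ℂ)‖ ^ 2 * (C * Lg t / x) ^ 2 ≤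
      16 * κ ^ 2 / (1 + t ^ 2) * (C * Lg t / x) ^ 2 := mul_le_mul_of_nonneg_right b3 (sq_nonneg _)
  have b8 : 64 * κ ^ 2 / (1 + t ^ 2) ≤ 64 * κ ^ 2 / (1 + t ^ 2) * (Lg t ^ 2 / x ^ 2) := by
    have h3 : 1 ≤ Lg t ^ 2 / x ^ 2 := by
      rw [le_div_iff₀ (by positivity)]
      nlinarith
    have h4 : 0 ≤ 64 * κ ^ 2 / (1 + t ^ 2) := by positivity
    nlinarith
  have e2 : 16 * κ ^ 2 / (1 + t ^ 2) * (C * Lg t / x) ^ 2 = 16 * C ^ 2 / x ^ 2 * κ ^ 2 * (Lg t ^ 2 / (1 + t ^ 2)) := by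
    field_simp
  have e3 : 64 * κ ^ 2 / (1 + t ^ 2) * (Lg t ^ 2 / x ^ 2) = 64 / x ^ 2 * κ ^ 2 * (Lg t ^ 2 / (1 + t ^ 2)) := by
    field_simp
  have b9 : (32 * C ^ 2 + 128) / x ^ 2 * κ ^ 2 * (Lg t ^ 2 / (1 + t ^ 2)) ≤
      (32 * C ^ 2 + 128) / x ^ 2 * κ ^ 2 * w1 t := mul_le_mul_of_nonneg_left b5 (by positivity)
  refine le_trans ?_ b9
  have e4 : (32 * C ^ 2 + 128) / x ^ 2 * κ ^ 2 * (Lg t ^ 2 / (1 + t ^ 2)) =
      2 * (16 * C ^ 2 / x ^ 2 * κ ^ 2 * (Lg t ^ 2 / (1 + t ^ 2))) +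
      2 * (64 / x ^ 2 * κ ^ 2 * (Lg t ^ 2 / (1 + t ^ 2))) := by ring
  rw [e4, ← e2, ← e3]
  linarith

lemma Q_sq (hG : G.Good) : ∃ C : ℝ, 0 < C ∧ ∀ κ x : ℝ, 0 < κ → κ ≤ 1 → 0 < x →
    x ≤ 1 / 4 → ∀ t : ℝ, Qf G κ x t ^ 2 ≤ C / x ^ 2 * κ ^ (1 / 2 : ℝ) * w1 t := by
  obtain ⟨C, hC, hD⟩ := DD_abs hG
  refine ⟨5 * C ^ 2, by positivity, fun κ x hκ hκ1 hx h1 t => ?_⟩
  unfold Qf
  rw [mul_pow]
  have h2 := pow_le_pow_left₀ (abs_nonneg _) (hD x hx h1 t) 2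
  rw [sq_abs] at h2
  calc h0 κ t ^ 2 * G.DD x t ^ 2 ≤ 5 * (κ ^ (1 / 2 : ℝ) * (1 + t ^ 2) ^ (-(3 / 4) : ℝ)) * (C * Lg t / x) ^ 2 :=
        mul_le_mul (h0_sq hκ hκ1 t) h2 (sq_nonneg _) (by positivity)
    _ = _ := by unfold w1; ring

lemma Qf_cont (hG : G.Good) {κ x : ℝ} (hx : 0 < x) (h1 : x ≤ 1 / 4) :
    Continuous (Qf G κ x) := by
  unfold Qf
  exact (h0_cont κ).mul (DD_cont hG hx h1)

lemma Qf_int (hG : G.Good) {κ x : ℝ} (hκ : 0 < κ) (hκ1 : κ ≤ 1) (hx : 0 < x)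
    (h1 : x ≤ 1 / 4) : Integrable (fun t => Qf G κ x t ^ 2) := by
  obtain ⟨C, hC, h⟩ := Q_sq hG
  refine (w1_int.const_mul (C / x ^ 2 * κ ^ (1 / 2 : ℝ))).mono' ((Qf_cont hG hx h1).pow 2).aestronglyMeasurable
    (ae_of_all _ fun t => ?_)
  rw [Real.norm_eq_abs, abs_of_nonneg (sq_nonneg _)]
  exact h κ x hκ hκ1 hx h1 t

/-- **the mean square identity with error term** -/
theorem t_T1a : S_T1a := by
  intro G hG
  obtain ⟨C1, hC1, hP⟩ := PQ_sub hG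
  obtain ⟨C2, hC2, hQ⟩ := Q_sq hG
  set J : ℝ := ∫ t, w1 t with hJ
  have hJ0 : 0 ≤ J := integral_nonneg w1_nonneg
  have hpi := Real.pi_pos
  have hpi1 : 1 / Real.pi ≤ 1 := by
    rw [div_le_one hpi]; linarith [Real.pi_gt_three]
  refine ⟨4 * (C1 + C2) * (J + 1) * 10 , by positivity, fun κ x hκ hκ2 hx h1 => ?_⟩
  show |(∫ u in Ioi (0 : ℝ), G.Dl κ u ^ 2 * Real.exp (-(2 * x * u))) -
    1 / Real.pi * ∫ t, Qf G κ x t ^ 2| ≤ _
  set S : ℝ := ∫ u in Ioi (0 : ℝ), G.Dl κ u ^ 2 * Real.exp (-(2 * x * u)) with hS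
  have hS0 : 0 ≤ S := setIntegral_nonneg measurableSet_Ioi fun u _ => by positivity
  obtain ⟨hPi, hPe⟩ := S_planch hG hκ hκ2 hx h1
  rw [← hS] at hPe
  have hQi := Qf_int hG hκ (by linarith) hx h1
  set IP : ℝ := ∫ t, Pf G κ x t ^ 2 with hIP
  set IQ : ℝ := ∫ t, Qf G κ x t ^ 2 with hIQ
  -- the difference
  have hdi : Integrable (fun t => (Pf G κ x t - Qf G κ x t) ^ 2) := by
    refine (w1_int.const_mul (C1 / x ^ 2 * κ ^ 2)).mono'
      (((Pf_cont hG hx h1).sub (Qf_cont hG hx h1)).pow 2).aestronglyMeasurable (ae_of_all _ fun t => ?_)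
    rw [Real.norm_eq_abs, abs_of_nonneg (sq_nonneg _)]
    exact hP κ x hκ hκ2 hx h1 t
  have hD : ∫ t, (Pf G κ x t - Qf G κ x t) ^ 2 ≤ C1 / x ^ 2 * κ ^ 2 * J := by
    rw [hJ, ← integral_const_mul]
    exact integral_mono hdi (w1_int.const_mul _) fun t => hP κ x hκ hκ2 hx h1 t
  have hIQ0 : 0 ≤ IQ := integral_nonneg fun t => sq_nonneg _
  have hIQ1 : IQ ≤ C2 / x ^ 2 * κ ^ (1 / 2 : ℝ) * J := by
    rw [hJ, ← integral_const_mul]
    exact integral_mono hQi (w1_int.const_mul _) fun t => hQ κ x hκ (by linarith) hx h1 t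
  set η : ℝ := κ ^ (3 / 4 : ℝ) with hη
  have hη0 : 0 < η := by positivity
  have hη1 : η ≤ 1 := Real.rpow_le_one hκ.le (by linarith) (by norm_num)
  have hdiff : |IP - IQ| ≤ η * IQ + (1 + 1 / η) * ∫ t, (Pf G κ x t - Qf G κ x t) ^ 2 := by
    have hu : ∀ t : ℝ, |Pf G κ x t ^ 2 - Qf G κ x t ^ 2| ≤
        η * Qf G κ x t ^ 2 + (1 + 1 / η) * (Pf G κ x t - Qf G κ x t) ^ 2 := by
      intro t
      set p := Qf G κ x t
      set q := Pf G κ x t - p with hq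
      have e : Pf G κ x t = p + q := by rw [hq]; ring
      rw [e]
      have h3 : 2 * p * q ≤ η * p ^ 2 + 1 / η * q ^ 2 := by
        have h5 : 0 ≤ (η * p - q) ^ 2 / η := div_nonneg (sq_nonneg _) hη0.le
        have h6 : (η * p - q) ^ 2 / η = η * p ^ 2 - 2 * p * q + 1 / η * q ^ 2 := by
          field_simp
          ring
        linarith
      have h3' : -(2 * p * q) ≤ η * p ^ 2 + 1 / η * q ^ 2 := by
        have h5 : 0 ≤ (η * p + q) ^ 2 / η := div_nonneg (sq_nonneg _) hη0.le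
        have h6 : (η * p + q) ^ 2 / η = η * p ^ 2 + 2 * p * q + 1 / η * q ^ 2 := by
          field_simp
          ring
        linarith
      rw [abs_le]
      constructor <;> nlinarith [sq_nonneg q]
    rw [hIP, hIQ, ← integral_sub hPi hQi, ← integral_const_mul, ← integral_const_mul,
      ← integral_add (hQi.const_mul _) (hdi.const_mul _)]
    refine (abs_integral_le_integral_abs).trans ?_
    exact integral_mono (hPi.sub hQi).abs ((hQi.const_mul _).add (hdi.const_mul _)) hu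
  -- powers of κ
  have k1 : η * κ ^ (1 / 2 : ℝ) = κ ^ (5 / 4 : ℝ) := by
    rw [hη, ← Real.rpow_add hκ]; norm_num
  have k2 : 1 / η * κ ^ 2 = κ ^ (5 / 4 : ℝ) := by
    rw [hη, one_div, ← Real.rpow_neg hκ.le, ← Real.rpow_natCast, ← Real.rpow_add hκ]; norm_num
  have k3 : κ ^ 2 ≤ κ ^ (5 / 4 : ℝ) := by
    rw [← Real.rpow_natCast]
    exact Real.rpow_le_rpow_of_exponent_ge hκ (by linarith) (by norm_num)
  have k4 : κ * κ ^ (1 / 2 : ℝ) ≤ κ ^ (5 / 4 : ℝ) := by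
    nth_rewrite 1 [← Real.rpow_one κ]
    rw [← Real.rpow_add hκ]
    exact Real.rpow_le_rpow_of_exponent_ge hκ (by linarith) (by norm_num)
  have k5 : κ * κ ^ (5 / 4 : ℝ) ≤ κ ^ (5 / 4 : ℝ) := by
    have : 0 ≤ κ ^ (5 / 4 : ℝ) := by positivity
    nlinarith
  set E : ℝ := κ ^ (5 / 4 : ℝ) with hE
  have hE0 : 0 < E := by positivity
  have hX : 0 < 1 / x ^ 2 := by positivity
  have hdiff2 : |IP - IQ| ≤ 2 * (C1 + C2) * J * (1 / x ^ 2) * E := by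
    refine hdiff.trans ?_
    have h3 : η * IQ ≤ C2 * J * (1 / x ^ 2) * E := by
      calc η * IQ ≤ η * (C2 / x ^ 2 * κ ^ (1 / 2 : ℝ) * J) := mul_le_mul_of_nonneg_left hIQ1 hη0.le
        _ = C2 * J * (1 / x ^ 2) * (η * κ ^ (1 / 2 : ℝ)) := by ring
        _ = _ := by rw [k1]
    have h4 : (1 + 1 / η) * (∫ t, (Pf G κ x t - Qf G κ x t) ^ 2) ≤ 2 * C1 * J * (1 / x ^ 2) * E := by
      calc (1 + 1 / η) * (∫ t, (Pf G κ x t - Qf G κ x t) ^ 2) ≤ (1 + 1 / η) * (C1 / x ^ 2 * κ ^ 2 * J) :=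
            mul_le_mul_of_nonneg_left hD (by positivity)
        _ = C1 * J * (1 / x ^ 2) * (κ ^ 2 + 1 / η * κ ^ 2) := by ring
        _ ≤ C1 * J * (1 / x ^ 2) * (E + E) := by
            apply mul_le_mul_of_nonneg_left _ (by positivity)
            rw [k2]; linarith
        _ = _ := by ring
    have h5 : 0 ≤ C2 * J * (1 / x ^ 2) * E := by positivity
    have e : 2 * (C1 + C2) * J * (1 / x ^ 2) * E = 2 * C1 * J * (1 / x ^ 2) * E +
      2 * (C2 * J * (1 / x ^ 2) * E) := by ring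
    rw [e]
    linarith
  -- the exponential factor
  set y : ℝ := κ * (1 / 2 + x) with hy
  have hy0 : 0 < y := by positivity
  have hy1 : y ≤ κ := by rw [hy]; nlinarith
  have hSe : S = Real.exp y * (1 / Real.pi * IP) := by
    rw [← hPe, ← mul_assoc, ← Real.exp_add, add_neg_cancel, Real.exp_zero, one_mul]
  have hey := exp_sub_one_le hy0.le (by linarith : y ≤ 1)
  have hey0 : 0 ≤ Real.exp y - 1 := by linarith [Real.one_le_exp hy0.le]
  have hIP0 : 0 ≤ IP := integral_nonneg fun t => sq_nonneg _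
  have e1 : S - 1 / Real.pi * IQ = (Real.exp y - 1) * (1 / Real.pi * IP) + 1 / Real.pi * (IP - IQ) := by
    rw [hSe]; ring
  have hIPle : IP ≤ IQ + 2 * (C1 + C2) * J * (1 / x ^ 2) * E := by
    linarith [(abs_le.1 hdiff2).2]
  have f1 : (Real.exp y - 1) * (1 / Real.pi * IP) ≤ 2 * κ * IP := by
    have : 1 / Real.pi * IP ≤ IP := by nlinarith
    calc (Real.exp y - 1) * (1 / Real.pi * IP) ≤ (2 * κ) * IP :=
          mul_le_mul (by linarith) this (by positivity) (by positivity)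
      _ = _ := rfl
  have f2 : 2 * κ * IP ≤ 2 * (C2 * J * (1 / x ^ 2) * E) + 2 * (2 * (C1 + C2) * J * (1 / x ^ 2) * E) := by
    calc 2 * κ * IP ≤ 2 * κ * (C2 / x ^ 2 * κ ^ (1 / 2 : ℝ) * J + 2 * (C1 + C2) * J * (1 / x ^ 2) * E) :=
          mul_le_mul_of_nonneg_left (by linarith) (by positivity)
      _ = 2 * (C2 * J * (1 / x ^ 2) * (κ * κ ^ (1 / 2 : ℝ))) + 2 * (2 * (C1 + C2) * J * (1 / x ^ 2) * (κ * E)) := by
          ring
      _ ≤ _ := by gcongr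
  have f3 : |1 / Real.pi * (IP - IQ)| ≤ 2 * (C1 + C2) * J * (1 / x ^ 2) * E := by
    rw [abs_mul, abs_of_pos (by positivity : 0 < 1 / Real.pi)]
    calc 1 / Real.pi * |IP - IQ| ≤ 1 * |IP - IQ| := mul_le_mul_of_nonneg_right hpi1 (abs_nonneg _)
      _ ≤ _ := by rw [one_mul]; exact hdiff2
  rw [e1]
  have g0 : 0 ≤ (Real.exp y - 1) * (1 / Real.pi * IP) := by positivity
  refine (abs_add_le _ _).trans ?_
  rw [abs_of_nonneg g0]
  have e5 : 4 * (C1 + C2) * (J + 1) * 10 / x ^ 2 * E = 40 * (C1 * J * (1 / x ^ 2) * E) +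
      40 * (C2 * J * (1 / x ^ 2) * E) + 40 * (C1 + C2) * (1 / x ^ 2) * E := by ring
  rw [e5]
  have g1 : 0 ≤ C1 * J * (1 / x ^ 2) * E := by positivity
  have g2 : 0 ≤ C2 * J * (1 / x ^ 2) * E := by positivity
  have g3 : 0 ≤ 40 * (C1 + C2) * (1 / x ^ 2) * E := by positivity
  have e6 : 2 * (C1 + C2) * J * (1 / x ^ 2) * E = 2 * (C1 * J * (1 / x ^ 2) * E) +
    2 * (C2 * J * (1 / x ^ 2) * E) := by ring
  rw [e6] at f2 f3
  linarith

end Pool.Agent.Q257.GX.T1a
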