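import Pool.Agent.Q257.GX.RRb
import Pool.Agent.Q257.GX.T1a

set_option autoImplicit false

/-!
# GX-TL: uniform tails
-/

namespace Pool.Agent.Q257.GX

open MeasureTheory Filter Topology Set
open Pool.Agent.Y23 (Lg one_le_Lg)
open Pool.Agent.Q260.GM (sx LL LL_top ev_pos ev_le ev_L inv_top abel w1 w1_nonneg w1_cont w1_int w1_ge
  w1_scale quarter_le_one quarter_far int_inv_sq)
open Pool.Agent.Q260.GX
open Pool.Agent.Q257.GX.T1a (DD_cont DD_abs)

variable {G : Dat}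

lemma gd_nonneg (κ a y : ℝ) : 0 ≤ G.gd κ a y := by unfold Dat.gd; positivity

lemma gd_cont (hG : G.Good) {κ a : ℝ} (hx : 0 < a / LL κ) (h1 : a / LL κ ≤ 1 / 4) :
    Continuous (G.gd κ a) := by
  unfold Dat.gd
  exact ((((DD_cont hG hx h1).comp (continuous_id.div_const κ))).pow 2).div_const _

lemma gd_int {κ a : ℝ} (hκ : 0 < κ) (Y : ℝ) : ∫ y in (0 : ℝ)..Y, G.gd κ a y =
    κ / LL κ ^ 2 * ∫ t in (0 : ℝ)..(Y / κ), G.DD (a / LL κ) t ^ 2 := by
  unfold Dat.gd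
  rw [intervalIntegral.integral_div, intervalIntegral.integral_comp_div (fun t => G.DD (a / LL κ) t ^ 2) hκ.ne',
    zero_div, smul_eq_mul]
  ring

lemma mean_bdd (hPM : S_PM) (hG : G.Good) (hCr : G.Crude) {a1 a2 : ℝ} (h1 : 0 < a1) (h12 : a1 ≤ a2) :
    ∃ C : ℝ, 0 < C ∧ ∀ᶠ T : ℝ in atTop, ∀ a ∈ Icc a1 a2,
      ∫ t in (0 : ℝ)..T, G.DD (a / Real.log T) t ^ 2 ≤ C * (T * Real.log T ^ 2) := by
  obtain ⟨R, hR0, hR⟩ := RR_bdd hG hCr h1 h12
  refine ⟨R + 1, by positivity, ?_⟩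
  filter_upwards [hPM G hG hCr a1 a2 1 h1 h12 one_pos, hR, eventually_ge_atTop (0 : ℝ)] with T h2 h3 hT a ha
  have h4 := (abs_le.1 (h2 a ha)).2
  obtain ⟨h5, h6⟩ := h3 a ha
  have h7 : T * Real.log T ^ 2 / 4 * (G.RR a T - G.n ^ 2) ≤ R * (T * Real.log T ^ 2) := by
    have h8 : 0 ≤ T * Real.log T ^ 2 := by positivity
    nlinarith [mul_le_mul_of_nonneg_left h6 h8, mul_nonneg hR0.le h8, mul_nonneg (sq_nonneg G.n) h8]
  linarith

/-- the integrated density grows at most linearly -/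
lemma G_bdd (hPM : S_PM) (hG : G.Good) (hCr : G.Crude) {a1 a2 : ℝ} (h1 : 0 < a1) (h12 : a1 ≤ a2) :
    ∃ C : ℝ, 0 < C ∧ ∀ᶠ κ : ℝ in 𝓝[>] 0, ∀ a ∈ Icc a1 a2, ∀ Y : ℝ, 0 ≤ Y → Y ≤ 1 / κ ^ 2 →
      ∫ y in (0 : ℝ)..Y, G.gd κ a y ≤ C * (1 + Y) := by
  obtain ⟨C, hC, h⟩ := mean_bdd hPM hG hCr h1 (by linarith : a1 ≤ 3 * a2)
  obtain ⟨T0, hT0⟩ := h.exists_forall_of_atTop
  refine ⟨9 * C, by positivity, ?_⟩
  filter_upwards [ev_pos, ev_le (c := 1 / 2) (by norm_num), ev_L (max 1 (4 * a2)),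
    inv_top.eventually_ge_atTop T0] with κ hκ hκ1 hL hT a ha
  have ha0 : 0 < a := by linarith [ha.1]
  have hL1 : 1 ≤ LL κ := (le_max_left _ _).trans hL
  have hL4 : 4 * a2 ≤ LL κ := (le_max_right _ _).trans hL
  have hLp : 0 < LL κ := by linarith
  have hx0 : 0 < a / LL κ := by positivity
  have hx1 : a / LL κ ≤ 1 / 4 := by rw [div_le_iff₀ hLp]; linarith [ha.2]
  have hgc := gd_cont hG hx0 hx1
  -- the main range
  have main : ∀ Y : ℝ, 1 ≤ Y → Y ≤ 1 / κ ^ 2 → ∫ y in (0 : ℝ)..Y, G.gd κ a y ≤ 9 * C * Y := by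
    intro Y hY1 hY2
    rw [gd_int hκ]
    set T : ℝ := Y / κ with hTd
    have hTT : T0 ≤ T := by
      refine hT.trans ?_
      rw [hTd]
      exact div_le_div_of_nonneg_right hY1 hκ.le
    have hTp : 0 < T := by positivity
    have hlog : Real.log T = LL κ + Real.log Y := by
      rw [hTd, Real.log_div (by positivity) hκ.ne']
      unfold LL
      rw [Real.log_div one_ne_zero hκ.ne', Real.log_one]
      ring
    have hlY0 : 0 ≤ Real.log Y := Real.log_nonneg hY1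
    have hlY1 : Real.log Y ≤ 2 * LL κ := by
      have := Real.log_le_log (by linarith) hY2
      rw [one_div, Real.log_inv, Real.log_pow] at this
      unfold LL
      rw [one_div, Real.log_inv]
      push_cast at this
      linarith
    have hlT : LL κ ≤ Real.log T := by linarith
    have hlT3 : Real.log T ≤ 3 * LL κ := by linarith
    have hlTp : 0 < Real.log T := by linarith
    set a' : ℝ := a * Real.log T / LL κ with ha'
    have h2 : a' / Real.log T = a / LL κ := by rw [ha']; field_simp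
    have ha1' : a1 ≤ a' := by
      rw [ha', le_div_iff₀ hLp]
      nlinarith [ha.1]
    have ha2' : a' ≤ 3 * a2 := by
      rw [ha', div_le_iff₀ hLp]
      nlinarith [ha.2]
    have h3 := hT0 T hTT a' ⟨ha1', ha2'⟩
    rw [h2] at h3
    have h4 : Real.log T ^ 2 ≤ 9 * LL κ ^ 2 := by nlinarith
    calc κ / LL κ ^ 2 * ∫ t in (0 : ℝ)..T, G.DD (a / LL κ) t ^ 2 ≤ κ / LL κ ^ 2 * (C * (T * (9 * LL κ ^ 2))) := by
          apply mul_le_mul_of_nonneg_left _ (by positivity)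
          refine h3.trans ?_
          gcongr
      _ = 9 * C * Y := by rw [hTd]; field_simp
  intro Y hY0 hY
  rcases le_total 1 Y with hY1 | hY1
  · have := main Y hY1 hY
    have : 9 * C * Y ≤ 9 * C * (1 + Y) := mul_le_mul_of_nonneg_left (by linarith) (by positivity)
    linarith
  · have h2 := main 1 le_rfl (by
      rw [le_div_iff₀ (by positivity)]; nlinarith)
    have h3 : ∫ y in (0 : ℝ)..Y, G.gd κ a y ≤ ∫ y in (0 : ℝ)..1, G.gd κ a y :=
      intervalIntegral.integral_mono_interval le_rfl hY0 hY1 (ae_of_all _ fun y => gd_nonneg (G := G) κ a y)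
        (hgc.intervalIntegrable _ _)
    have : 9 * C * 1 ≤ 9 * C * (1 + Y) := mul_le_mul_of_nonneg_left (by linarith) (by positivity)
    linarith

/-- the pointwise bound -/
lemma gd_point (hG : G.Good) {a1 a2 : ℝ} (h1 : 0 < a1) :
    ∃ C : ℝ, 0 < C ∧ ∀ᶠ κ : ℝ in 𝓝[>] 0, ∀ a ∈ Icc a1 a2, ∀ y : ℝ,
      G.gd κ a y / (1 + y ^ 2) ≤ C / κ ^ 2 * (w1 (y / κ) * (1 + (y / κ) ^ 2) ^ (-(1 / 4) : ℝ)) := by
  obtain ⟨C, hC, h⟩ := DD_abs hG
  refine ⟨C ^ 2 / a1 ^ 2, by positivity, ?_⟩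
  filter_upwards [ev_pos, ev_le (c := 1) one_pos, ev_L (max 1 (4 * a2))] with κ hκ hκ1 hL a ha y
  have ha0 : 0 < a := by linarith [ha.1]
  have hL1 : 1 ≤ LL κ := (le_max_left _ _).trans hL
  have hL4 : 4 * a2 ≤ LL κ := (le_max_right _ _).trans hL
  have hLp : 0 < LL κ := by linarith
  have hx0 : 0 < a / LL κ := by positivity
  have hx1 : a / LL κ ≤ 1 / 4 := by rw [div_le_iff₀ hLp]; linarith [ha.2]
  have h2 := pow_le_pow_left₀ (abs_nonneg _) (h (a / LL κ) hx0 hx1 (y / κ)) 2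
  rw [sq_abs] at h2
  have h3 : G.gd κ a y ≤ C ^ 2 / a1 ^ 2 * Lg (y / κ) ^ 2 := by
    unfold Dat.gd
    rw [div_le_iff₀ (by positivity)]
    refine h2.trans ?_
    have e : (C * Lg (y / κ) / (a / LL κ)) ^ 2 = C ^ 2 / a ^ 2 * Lg (y / κ) ^ 2 * LL κ ^ 2 := by
      field_simp
    rw [e]
    have h4 : C ^ 2 / a ^ 2 ≤ C ^ 2 / a1 ^ 2 :=
      div_le_div_of_nonneg_left (by positivity) (by positivity) (pow_le_pow_left₀ h1.le ha.1 2)
    gcongr
  have h5 : 1 / (1 + y ^ 2) ≤ 1 / κ ^ 2 * (1 / (1 + (y / κ) ^ 2)) := by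
    rw [div_mul_div_comm, one_mul, div_le_div_iff₀ (by positivity) (by positivity)]
    have e : κ ^ 2 * (1 + (y / κ) ^ 2) = κ ^ 2 + y ^ 2 := by field_simp
    rw [one_mul, one_mul, e]
    nlinarith
  have h6 : w1 (y / κ) * (1 + (y / κ) ^ 2) ^ (-(1 / 4) : ℝ) = Lg (y / κ) ^ 2 * (1 / (1 + (y / κ) ^ 2)) := by
    unfold w1
    have e : (-(3 / 4) + -(1 / 4) : ℝ) = -1 := by norm_num
    rw [mul_assoc, ← Real.rpow_add (by positivity), e, one_div, Real.rpow_neg_one]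
  rw [h6, ← mul_one_div]
  calc G.gd κ a y * (1 / (1 + y ^ 2)) ≤ (C ^ 2 / a1 ^ 2 * Lg (y / κ) ^ 2) * (1 / κ ^ 2 * (1 / (1 + (y / κ) ^ 2))) :=
        mul_le_mul h3 h5 (by positivity) (by positivity)
    _ = _ := by ring

/-- **uniform tails** -/
theorem tail_bdd (hPM : S_PM) (hG : G.Good) (hCr : G.Crude) {a1 a2 : ℝ} (h1 : 0 < a1) (h12 : a1 ≤ a2) :
    ∃ C : ℝ, 0 < C ∧ ∀ᶠ κ : ℝ in 𝓝[>] 0, ∀ a ∈ Icc a1 a2,
      Integrable (fun y => G.gd κ a y / (1 + y ^ 2)) ∧ ∀ Y : ℝ, 0 ≤ Y → Y ≤ 1 / κ ^ 2 →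
        ∫ y in Ioi Y, G.gd κ a y / (1 + y ^ 2) ≤ C * (1 / (1 + Y) + Real.sqrt κ) := by
  obtain ⟨C1, hC1, hGb⟩ := G_bdd hPM hG hCr h1 h12
  obtain ⟨C2, hC2, hP⟩ := gd_point (a2 := a2) hG h1
  set J : ℝ := ∫ t, w1 t with hJ
  have hJ0 : 0 ≤ J := integral_nonneg w1_nonneg
  refine ⟨10 * C1 + C2 * J, by positivity, ?_⟩
  filter_upwards [hGb, hP, ev_pos, ev_le (c := 1) one_pos, ev_L (max 1 (4 * a2))] with κ hGκ hPκ hκ hκ1 hL a ha
  have ha0 : 0 < a := by linarith [ha.1]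
  have hL1 : 1 ≤ LL κ := (le_max_left _ _).trans hL
  have hL4 : 4 * a2 ≤ LL κ := (le_max_right _ _).trans hL
  have hLp : 0 < LL κ := by linarith
  have hx0 : 0 < a / LL κ := by positivity
  have hx1 : a / LL κ ≤ 1 / 4 := by rw [div_le_iff₀ hLp]; linarith [ha.2]
  have hgc := gd_cont hG hx0 hx1
  have hfc : Continuous (fun y => G.gd κ a y / (1 + y ^ 2)) :=
    hgc.div (by fun_prop) fun y => by positivity
  obtain ⟨hw, hwi⟩ := w1_scale hκ
  have hint : Integrable (fun y => G.gd κ a y / (1 + y ^ 2)) := by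
    refine (hw.const_mul (C2 / κ ^ 2)).mono' hfc.aestronglyMeasurable (ae_of_all _ fun y => ?_)
    rw [Real.norm_eq_abs, abs_of_nonneg (div_nonneg (gd_nonneg (G := G) _ _ _) (by positivity))]
    refine (hPκ a ha y).trans ?_
    apply mul_le_mul_of_nonneg_left _ (by positivity)
    have := quarter_le_one (y / κ)
    have := w1_nonneg (y / κ)
    nlinarith
  refine ⟨hint, fun Y hY0 hY1 => ?_⟩
  set B : ℝ := 1 / κ ^ 2 with hB
  have hB0 : 0 < B := by positivity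
  have hfn : ∀ y, 0 ≤ G.gd κ a y / (1 + y ^ 2) := fun y => div_nonneg (gd_nonneg (G := G) _ _ _) (by positivity)
  have hsplit : ∫ y in Ioi Y, G.gd κ a y / (1 + y ^ 2) =
      (∫ y in Y..B, G.gd κ a y / (1 + y ^ 2)) + ∫ y in Ioi B, G.gd κ a y / (1 + y ^ 2) := by
    have := intervalIntegral.integral_Ioi_sub_Ioi hint.integrableOn hY1
    linarith
  -- far part
  have hfar : ∫ y in Ioi B, G.gd κ a y / (1 + y ^ 2) ≤ C2 * J * Real.sqrt κ := by
    have h2 : ∫ y in Ioi B, G.gd κ a y / (1 + y ^ 2) ≤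
        ∫ y in Ioi B, C2 / κ ^ 2 * (κ * Real.sqrt κ) * w1 (y / κ) := by
      refine setIntegral_mono_on hint.integrableOn (hw.const_mul _).integrableOn measurableSet_Ioi
        fun y hy => ?_
      refine (hPκ a ha y).trans ?_
      have h3 : 1 / κ ^ 3 ≤ y / κ := by
        rw [le_div_iff₀ hκ]
        have e : 1 / κ ^ 3 * κ = B := by rw [hB]; field_simp
        rw [e]
        exact le_of_lt hy
      have h4 := quarter_far hκ h3
      have h5 := mul_le_mul_of_nonneg_left h4 (w1_nonneg (y / κ))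
      calc C2 / κ ^ 2 * (w1 (y / κ) * (1 + (y / κ) ^ 2) ^ (-(1 / 4) : ℝ)) ≤
            C2 / κ ^ 2 * (w1 (y / κ) * (κ * Real.sqrt κ)) := mul_le_mul_of_nonneg_left h5 (by positivity)
        _ = _ := by ring
    refine h2.trans ?_
    have h3 : ∫ y in Ioi B, C2 / κ ^ 2 * (κ * Real.sqrt κ) * w1 (y / κ) ≤
        ∫ y, C2 / κ ^ 2 * (κ * Real.sqrt κ) * w1 (y / κ) :=
      setIntegral_le_integral (hw.const_mul _) (ae_of_all _ fun y => by
        have := w1_nonneg (y / κ)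
        show 0 ≤ C2 / κ ^ 2 * (κ * Real.sqrt κ) * w1 (y / κ)
        positivity)
    refine h3.trans (le_of_eq ?_)
    rw [integral_const_mul, hwi, ← hJ]
    field_simp
  -- near part
  have hnear : ∫ y in Y..B, G.gd κ a y / (1 + y ^ 2) ≤ 10 * C1 * (1 / (1 + Y)) := by
    have e0 : ∫ y in Y..B, G.gd κ a y / (1 + y ^ 2) = ∫ y in Y..B, (1 / (1 + y ^ 2)) * G.gd κ a y :=
      intervalIntegral.integral_congr fun y _ => by ring
    have hd : ∀ y : ℝ, HasDerivAt (fun y : ℝ => 1 / (1 + y ^ 2)) (-(2 * y) / (1 + y ^ 2) ^ 2) y := by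
      intro y
      have hne : (1 + y ^ 2) ≠ 0 := by positivity
      have h2 := (((hasDerivAt_id y).pow 2).const_add 1).inv hne
      refine (h2.congr_deriv ?_).congr_of_eventuallyEq (Eventually.of_forall fun z => ?_)
      · simp
      · simp [one_div]
    have hdc : Continuous fun y : ℝ => -(2 * y) / (1 + y ^ 2) ^ 2 := by
      refine Continuous.div (by fun_prop) (by fun_prop) fun y => by positivity
    rw [e0, abel hd hdc hgc]
    have hM0 : ∀ y : ℝ, 0 ≤ y → 0 ≤ ∫ z in (0 : ℝ)..y, G.gd κ a z := fun y hy =>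
      intervalIntegral.integral_nonneg hy fun z _ => gd_nonneg (G := G) _ _ _
    have b1 : 1 / (1 + B ^ 2) * (∫ y in (0 : ℝ)..B, G.gd κ a y) ≤ C1 * (2 / (1 + Y)) := by
      have h2 := hGκ a ha B hB0.le le_rfl
      calc 1 / (1 + B ^ 2) * (∫ y in (0 : ℝ)..B, G.gd κ a y) ≤ 1 / (1 + B ^ 2) * (C1 * (1 + B)) :=
            mul_le_mul_of_nonneg_left h2 (by positivity)
        _ = C1 * ((1 + B) / (1 + B ^ 2)) := by ring
        _ ≤ C1 * (2 / (1 + Y)) := by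
            apply mul_le_mul_of_nonneg_left _ hC1.le
            rw [div_le_div_iff₀ (by positivity) (by positivity)]
            nlinarith [sq_nonneg (B - 1), mul_le_mul_of_nonneg_left hY1 (by linarith : 0 ≤ 1 + B)]
    have b2 : 0 ≤ 1 / (1 + Y ^ 2) * (∫ y in (0 : ℝ)..Y, G.gd κ a y) :=
      mul_nonneg (by positivity) (hM0 Y hY0)
    have b3 : -(∫ y in Y..B, -(2 * y) / (1 + y ^ 2) ^ 2 * ∫ z in (0 : ℝ)..y, G.gd κ a z) ≤ C1 * (8 * (1 / (1 + Y))) := by
      rw [← intervalIntegral.integral_neg]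
      have hMc : Continuous fun y : ℝ => ∫ z in (0 : ℝ)..y, G.gd κ a z :=
        intervalIntegral.continuous_primitive (fun _ _ => hgc.intervalIntegrable _ _) 0
      have h2 : ∫ y in Y..B, -(-(2 * y) / (1 + y ^ 2) ^ 2 * ∫ z in (0 : ℝ)..y, G.gd κ a z) ≤
          ∫ y in Y..B, C1 * (8 * (1 / (1 + y) ^ 2)) := by
        refine intervalIntegral.integral_mono_on hY1 ((hdc.mul hMc).neg.intervalIntegrable _ _) ?_ fun y hy => ?_
        · apply ContinuousOn.intervalIntegrable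
          rw [uIcc_of_le hY1]
          refine continuousOn_const.mul (continuousOn_const.mul (continuousOn_const.div (by fun_prop) fun y hy => ?_))
          have : 0 < 1 + y := by linarith [hy.1]
          positivity
        · have hy0 : 0 ≤ y := hY0.trans hy.1
          have h3 := hGκ a ha y hy0 hy.2
          have e : -(-(2 * y) / (1 + y ^ 2) ^ 2 * ∫ z in (0 : ℝ)..y, G.gd κ a z) =
              2 * y / (1 + y ^ 2) ^ 2 * ∫ z in (0 : ℝ)..y, G.gd κ a z := by ring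
          rw [e]
          calc 2 * y / (1 + y ^ 2) ^ 2 * ∫ z in (0 : ℝ)..y, G.gd κ a z ≤ 2 * y / (1 + y ^ 2) ^ 2 * (C1 * (1 + y)) :=
                mul_le_mul_of_nonneg_left h3 (by positivity)
            _ = C1 * (2 * y * (1 + y) / (1 + y ^ 2) ^ 2) := by ring
            _ ≤ C1 * (8 * (1 / (1 + y) ^ 2)) := by
                apply mul_le_mul_of_nonneg_left _ hC1.le
                rw [mul_one_div, div_le_div_iff₀ (by positivity) (by positivity)]
                have h4 : (1 + y) ^ 2 ≤ 2 * (1 + y ^ 2) := by nlinarith [sq_nonneg (y - 1)]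
                have h5 : ((1 + y) ^ 2) ^ 2 ≤ (2 * (1 + y ^ 2)) ^ 2 := pow_le_pow_left₀ (by positivity) h4 2
                have h6 : 2 * y * (1 + y) ≤ 2 * (1 + y) ^ 2 := by nlinarith
                calc 2 * y * (1 + y) * (1 + y) ^ 2 ≤ 2 * (1 + y) ^ 2 * (1 + y) ^ 2 :=
                      mul_le_mul_of_nonneg_right h6 (by positivity)
                  _ = 2 * ((1 + y) ^ 2) ^ 2 := by ring
                  _ ≤ 2 * (2 * (1 + y ^ 2)) ^ 2 := by linarith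
                  _ = 8 * (1 + y ^ 2) ^ 2 := by ring
      refine h2.trans ?_
      rw [intervalIntegral.integral_const_mul, intervalIntegral.integral_const_mul, int_inv_sq hY0 hY1]
      have : 0 ≤ 1 / (1 + B) := by positivity
      apply mul_le_mul_of_nonneg_left _ hC1.le
      linarith
    have e : 10 * C1 * (1 / (1 + Y)) = C1 * (2 / (1 + Y)) + C1 * (8 * (1 / (1 + Y))) := by ring
    rw [e]
    linarith
  rw [hsplit]
  have p1 : 0 ≤ 1 / (1 + Y) := by positivity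
  have p2 := Real.sqrt_nonneg κ
  have : (10 * C1 + C2 * J) * (1 / (1 + Y) + Real.sqrt κ) = 10 * C1 * (1 / (1 + Y)) + C2 * J * Real.sqrt κ +
      (10 * C1 * Real.sqrt κ + C2 * J * (1 / (1 + Y))) := by ring
  rw [this]
  have : 0 ≤ 10 * C1 * Real.sqrt κ + C2 * J * (1 / (1 + Y)) := by positivity
  linarith

/-- general position of the parameters -/
lemma ev_gen (hPM : S_PM) (hG : G.Good) (hCr : G.Crude) {a1 a2 : ℝ} (h1 : 0 < a1) (h12 : a1 ≤ a2) :
    ∃ C : ℝ, 0 < C ∧ ∀ᶠ κ : ℝ in 𝓝[>] 0, 0 < κ ∧ κ ≤ 1 ∧ 1 ≤ LL κ ∧ ∀ a ∈ Icc a1 a2,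
      Continuous (G.gd κ a) ∧ Integrable (fun y => G.gd κ a y / (1 + y ^ 2)) ∧
      (∀ Y : ℝ, 0 ≤ Y → Y ≤ 1 / κ ^ 2 →
        ∫ y in Ioi Y, G.gd κ a y / (1 + y ^ 2) ≤ C * (1 / (1 + Y) + Real.sqrt κ)) ∧
      ∀ Y : ℝ, 0 ≤ Y → Y ≤ 1 / κ ^ 2 → ∫ y in (0 : ℝ)..Y, G.gd κ a y ≤ C * (1 + Y) := by
  obtain ⟨C1, hC1, hGb⟩ := G_bdd hPM hG hCr h1 h12
  obtain ⟨C2, hC2, hB⟩ := tail_bdd hPM hG hCr h1 h12
  refine ⟨C1 + C2, by positivity, ?_⟩
  filter_upwards [hGb, hB, ev_pos, ev_le (c := 1) one_pos, ev_L (max 1 (4 * a2))] with κ hGκ hBκ hκ hκ1 hL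
  have hL1 : 1 ≤ LL κ := (le_max_left _ _).trans hL
  have hL4 : 4 * a2 ≤ LL κ := (le_max_right _ _).trans hL
  have hLp : 0 < LL κ := by linarith
  refine ⟨hκ, hκ1, hL1, fun a ha => ?_⟩
  have ha0 : 0 < a := by linarith [ha.1]
  have hx0 : 0 < a / LL κ := by positivity
  have hx1 : a / LL κ ≤ 1 / 4 := by rw [div_le_iff₀ hLp]; linarith [ha.2]
  refine ⟨gd_cont hG hx0 hx1, (hBκ a ha).1, fun Y hY0 hY1 => ?_, fun Y hY0 hY1 => ?_⟩
  · refine ((hBκ a ha).2 Y hY0 hY1).trans ?_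
    exact mul_le_mul_of_nonneg_right (by linarith) (by positivity)
  · refine (hGκ a ha Y hY0 hY1).trans ?_
    exact mul_le_mul_of_nonneg_right (by linarith) (by positivity)

/-- **TL** -/
theorem t_TL (h1 : S_PM) : S_TL := by
  intro G hG hCr a1 a2 h2 h3
  exact ev_gen h1 hG hCr h2 h3

end Pool.Agent.Q257.GX
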